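import Pool.Agent.Helper454.Wh.Defs

/-!
# Existence of the HOMFLY polynomial, part 1

The state space: formal combinations of lists of pairs `(e, b)`; a pair stands for an arc whose left
end is the first strand (with direction `b`) and whose right end is the strand `e + 1`, counted
without the arcs which come earlier in the list. The operators of the elementary pieces.
-/

set_option autoImplicit false

namespace Pool.Agent.Helper454.Wh.Homf

open Pool.Agent.Helper454.Wh (insD delD swpD noD)

/-- parameters -/
class Par (R : Type) [CommRing R] where
  a : R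
  ai : R
  z : R
  zi : R
  dl : R
  h1 : a * ai = 1
  h2 : z * dl = a - ai
  h3 : z * zi = 1

open Par

/-- the big space -/
abbrev V (R : Type) [CommRing R] : Type := List (ℕ × Bool) →₀ R

/-! ### directions -/

/-- directions after an arc with ends at `0` and `e + 1` has been added -/
def pre (e : ℕ) (b : Bool) (d : ℕ → Bool) : ℕ → Bool := fun k =>
  if k = 0 then b else if k = e + 1 then !b else if k ≤ e then d (k - 1) else d (k - 2)

/-- the directions of the strands of a list of arcs -/
def dirF : List (ℕ × Bool) → ℕ → Bool
  | [] => noD
  | (e, b) :: t => pre e b (dirF t)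

/-- directions after the strand `s` has been moved to the position `s + k` -/
def rotN (s k : ℕ) (d : ℕ → Bool) : ℕ → Bool := fun j =>
  if j < s then d j else if j < s + k then d (j + 1) else if j = s + k then d s else d j

/-- directions after the strand `s + k` has been moved to the position `s` -/
def rotL (s k : ℕ) (d : ℕ → Bool) : ℕ → Bool := fun j =>
  if j < s then d j else if j = s then d (s + k) else if j ≤ s + k then d (j - 1) else d j

theorem ins_zero (b : Bool) (d : ℕ → Bool) : insD 0 b d = pre 0 b d := by
  funext k
  simp only [pre, insD]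
  rcases k with _ | _ | k
  · simp
  · simp
  · simp

theorem ins_pre_le {l e : ℕ} (h : l ≤ e) (c b : Bool) (d : ℕ → Bool) :
    insD (l + 1) c (pre e b d) = pre (e + 2) b (insD l c d) := by
  funext k
  simp only [pre, insD]
  split_ifs <;> (first | rfl | omega | contradiction | assumption | (congr 1; omega) | (symm; assumption) | (simp_all; done) | (rename_i h; rw [← h]; congr 1; omega))

theorem ins_pre_ge {l e : ℕ} (h : e ≤ l) (c b : Bool) (d : ℕ → Bool) :
    insD (l + 2) c (pre e b d) = pre e b (insD l c d) := by
  funext k
  simp only [pre, insD]
  split_ifs <;> (first | rfl | omega | contradiction | assumption | (congr 1; omega) | (symm; assumption) | (simp_all; done) | (rename_i h; rw [← h]; congr 1; omega))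

theorem swp_pre_lt {j e : ℕ} (h : j + 1 < e) (b : Bool) (d : ℕ → Bool) :
    swpD (j + 1) (pre e b d) = pre e b (swpD j d) := by
  funext k
  simp only [pre, swpD]
  split_ifs <;> (first | rfl | omega | contradiction | assumption | (congr 1; omega) | (symm; assumption) | (simp_all; done) | (rename_i h; rw [← h]; congr 1; omega))

theorem swp_pre_ge {j e : ℕ} (h : e ≤ j) (b : Bool) (d : ℕ → Bool) :
    swpD (j + 2) (pre e b d) = pre e b (swpD j d) := by
  funext k
  simp only [pre, swpD]
  split_ifs <;> (first | rfl | omega | contradiction | assumption | (congr 1; omega) | (symm; assumption) | (simp_all; done) | (rename_i h; rw [← h]; congr 1; omega))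

theorem swp_pre_next (e : ℕ) (b : Bool) (d : ℕ → Bool) :
    swpD (e + 1) (pre e b d) = pre (e + 1) b d := by
  funext k
  simp only [pre, swpD]
  split_ifs <;> (first | rfl | omega | contradiction | assumption | (congr 1; omega) | (symm; assumption) | (simp_all; done) | (rename_i h; rw [← h]; congr 1; omega))

theorem swp_pre_end (e : ℕ) (b : Bool) (d : ℕ → Bool) :
    swpD (e + 1) (pre (e + 1) b d) = pre e b d := by
  funext k
  simp only [pre, swpD]
  split_ifs <;> (first | rfl | omega | contradiction | assumption | (congr 1; omega) | (symm; assumption) | (simp_all; done) | (rename_i h; rw [← h]; congr 1; omega))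

theorem pre_par {e : ℕ} {b : Bool} {d : ℕ → Bool} (h : d e = !b) : pre e b d = pre (e + 1) b d := by
  funext k
  simp only [pre]
  split_ifs <;> (first | rfl | omega | contradiction | assumption | (congr 1; omega) | (symm; assumption) | (simp_all; done) | (rename_i h; rw [← h]; congr 1; omega))

theorem rot_pre1 {e : ℕ} {b : Bool} {d : ℕ → Bool} (h : d e = b) :
    insD (e + 1) b (rotL 0 e d) = pre (e + 1) b d := by
  funext k
  simp only [pre, insD, rotL, Nat.zero_add]
  split_ifs <;> (first | rfl | omega | contradiction | assumption | (congr 1; omega) | (symm; assumption) | (simp_all; done) | (rename_i h; rw [← h]; congr 1; omega))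

theorem rot_pre2 {e : ℕ} {b : Bool} {d : ℕ → Bool} (h : d e = b) :
    insD (e + 1) (!b) (rotL 0 e d) = pre e b d := by
  funext k
  simp only [pre, insD, rotL, Nat.zero_add, Bool.not_not]
  split_ifs <;> (first | rfl | omega | contradiction | assumption | (congr 1; omega) | (symm; assumption) | (simp_all; done) | (rename_i h; rw [← h]; congr 1; omega))

theorem swp_zero (b : Bool) (d : ℕ → Bool) : swpD 0 (pre 0 b d) = pre 0 (!b) d := by
  funext k
  simp only [pre, swpD]
  rcases k with _ | _ | k
  · simp
  · simp
  · simp

theorem rot_ins {e : ℕ} {b : Bool} {d : ℕ → Bool} :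
    rotN 2 e (insD 1 b d) = swpD 0 (pre (e + 1) b d) := by
  funext k
  simp only [pre, insD, rotN, swpD]
  split_ifs <;> (first | rfl | omega | contradiction | assumption | (congr 1; omega) | (symm; assumption) | (simp_all; done) | (rename_i h; rw [← h]; congr 1; omega))

theorem rot_zero {e : ℕ} {b : Bool} {d : ℕ → Bool} (h : d 0 = !b) :
    pre 0 (!b) (rotN 0 e d) = swpD 0 (pre (e + 1) b d) := by
  funext k
  simp only [pre, rotN, swpD, Bool.not_not, Nat.zero_add]
  split_ifs <;> (first | rfl | omega | contradiction | assumption | (congr 1; omega) | (symm; assumption) | (simp_all; done) | (rename_i h; rw [← h]; congr 1; omega))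

theorem par_zero {e : ℕ} {b : Bool} {d : ℕ → Bool} (h : d 0 = b) :
    pre (e + 1) b d = swpD 0 (pre (e + 1) b d) := by
  funext k
  simp only [pre, swpD]
  split_ifs <;> (first | rfl | omega | contradiction | assumption | (congr 1; omega) | (symm; assumption) | (simp_all; done) | (rename_i h; rw [← h]; congr 1; omega))

theorem del_zero (b : Bool) (d : ℕ → Bool) : delD 0 (pre 0 b d) = d := by
  funext k
  simp [pre, delD]

theorem del_succ {e : ℕ} {b : Bool} {d : ℕ → Bool} (h : d 0 = !b) :
    delD 0 (pre (e + 1) b d) = rotN 0 e d := by
  funext k
  simp only [pre, rotN, delD, Nat.zero_add]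
  split_ifs <;> (first | rfl | omega | contradiction | assumption | (congr 1; omega) | (symm; assumption) | (simp_all; done) | (rename_i h; rw [← h]; congr 1; omega))

theorem del_le {j e : ℕ} (h : j ≤ e) (b : Bool) (d : ℕ → Bool) :
    delD (j + 1) (pre (e + 2) b d) = pre e b (delD j d) := by
  funext k
  simp only [pre, delD]
  split_ifs <;> (first | rfl | omega | contradiction | assumption | (congr 1; omega) | (symm; assumption) | (simp_all; done) | (rename_i h; rw [← h]; congr 1; omega))

theorem del_ge {j e : ℕ} (h : e ≤ j) (b : Bool) (d : ℕ → Bool) :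
    delD (j + 2) (pre e b d) = pre e b (delD j d) := by
  funext k
  simp only [pre, delD]
  split_ifs <;> (first | rfl | omega | contradiction | assumption | (congr 1; omega) | (symm; assumption) | (simp_all; done) | (rename_i h; rw [← h]; congr 1; omega))

theorem del_next {e : ℕ} {b : Bool} {d : ℕ → Bool} (h : d e = b) :
    delD (e + 1) (pre e b d) = rotL 0 e d := by
  funext k
  simp only [pre, rotL, delD, Nat.zero_add]
  split_ifs <;> (first | rfl | omega | contradiction | assumption | (congr 1; omega) | (symm; assumption) | (simp_all; done) | (rename_i h; rw [← h]; congr 1; omega))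

theorem del_end {e : ℕ} {b : Bool} {d : ℕ → Bool} (h : d e = b) :
    delD (e + 1) (pre (e + 1) b d) = rotL 0 e d := by
  funext k
  simp only [pre, rotL, delD, Nat.zero_add]
  split_ifs <;> (first | rfl | omega | contradiction | assumption | (congr 1; omega) | (symm; assumption) | (simp_all; done) | (rename_i h; rw [← h]; congr 1; omega))

end Pool.Agent.Helper454.Wh.Homf
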