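import Pool.Agent.Helper454.Wh.Homf.E9

/-!
# Existence of the HOMFLY polynomial, part 10: diagrams and local moves
-/

set_option autoImplicit false

namespace Pool.Agent.Helper454.Wh.Homf

open Pool.Agent.Helper454.Wh (insD delD swpD noD OPiece OWord below forget)
open Pool.Agent.Helper454.Wh.OPiece (birth death pos neg)
open Pool.Agent.Helper454.Kauf (LocalMove FirstMove Piece)
open Par

noncomputable section

set_option linter.unusedSectionVars false

/-! ### widths and directions -/

theorem bl_birth {i n : ℕ} {b : Bool} {d : ℕ → Bool} {s : ℕ × (ℕ → Bool)}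
    (h : (birth i b).below n d = some s) : i ≤ n ∧ s = (n + 2, insD i b d) := by
  simp only [OPiece.below] at h
  split at h
  · rename_i hi
    exact ⟨hi, (Option.some.inj h).symm⟩
  · exact absurd h (by simp)

theorem bl_death {i n : ℕ} {d : ℕ → Bool} {s : ℕ × (ℕ → Bool)}
    (h : (death i).below n d = some s) :
    i + 2 ≤ n ∧ (d (i + 1) = !d i) ∧ s = (n - 2, delD i d) := by
  simp only [OPiece.below] at h
  split at h
  · rename_i hi
    exact ⟨hi.1, hi.2, (Option.some.inj h).symm⟩
  · exact absurd h (by simp)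

theorem bl_pos {i n : ℕ} {d : ℕ → Bool} {s : ℕ × (ℕ → Bool)}
    (h : (pos i).below n d = some s) : i + 2 ≤ n ∧ s = (n, swpD i d) := by
  simp only [OPiece.below] at h
  split at h
  · rename_i hi
    exact ⟨hi, (Option.some.inj h).symm⟩
  · exact absurd h (by simp)

theorem bl_neg {i n : ℕ} {d : ℕ → Bool} {s : ℕ × (ℕ → Bool)}
    (h : (neg i).below n d = some s) : i + 2 ≤ n ∧ s = (n, swpD i d) := by
  simp only [OPiece.below] at h
  split at h
  · rename_i hi
    exact ⟨hi, (Option.some.inj h).symm⟩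
  · exact absurd h (by simp)

theorem bl_cons {p : OPiece} {w : OWord} {n : ℕ} {d : ℕ → Bool} {s : ℕ × (ℕ → Bool)}
    (h : below (p :: w) n d = some s) :
    ∃ s', p.below n d = some s' ∧ below w s'.1 s'.2 = some s := by
  simp only [below] at h
  exact Option.bind_eq_some_iff.1 h

theorem bl_cons_of {p : OPiece} {w : OWord} {n : ℕ} {d : ℕ → Bool} {s s' : ℕ × (ℕ → Bool)}
    (h : p.below n d = some s') (h' : below w s'.1 s'.2 = some s) :
    below (p :: w) n d = some s := by
  simp only [below]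
  rw [h]
  exact h'

theorem bl_nil {n : ℕ} {d : ℕ → Bool} {s : ℕ × (ℕ → Bool)} (h : below [] n d = some s) :
    s = (n, d) := (Option.some.inj h).symm

theorem bl_append {u w : OWord} {n : ℕ} {d : ℕ → Bool} {s : ℕ × (ℕ → Bool)}
    (h : below (u ++ w) n d = some s) :
    ∃ s', below u n d = some s' ∧ below w s'.1 s'.2 = some s := by
  induction u generalizing n d with
  | nil => exact ⟨(n, d), rfl, h⟩
  | cons p u ih =>
    obtain ⟨s1, h1, h2⟩ := bl_cons h
    obtain ⟨s2, h3, h4⟩ := ih h2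
    exact ⟨s2, bl_cons_of h1 h3, h4⟩

theorem bl_append_of {u w : OWord} {n : ℕ} {d : ℕ → Bool} {s s' : ℕ × (ℕ → Bool)}
    (h : below u n d = some s') (h' : below w s'.1 s'.2 = some s) :
    below (u ++ w) n d = some s := by
  induction u generalizing n d with
  | nil =>
    obtain rfl := bl_nil h
    exact h'
  | cons p u ih =>
    obtain ⟨s1, h1, h2⟩ := bl_cons h
    exact bl_cons_of h1 (ih h2)

/-! ### the operator of a diagram and its writhe -/

/-- the sign of a crossing of strands with the directions `x`, `y` -/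
def eps (x y : Bool) : ℤ := if x = y then 1 else -1

/-- the sign of a piece -/
def sg : OPiece → (ℕ → Bool) → ℤ
  | birth _ _, _ => 0
  | death _, _ => 0
  | pos i, d => eps (d i) (d (i + 1))
  | neg i, d => -eps (d i) (d (i + 1))

/-- the next directions -/
def nd : OPiece → (ℕ → Bool) → (ℕ → Bool)
  | birth i b, d => insD i b d
  | death i, d => delD i d
  | pos i, d => swpD i d
  | neg i, d => swpD i d

/-- the writhe -/
def wr : OWord → (ℕ → Bool) → ℤ
  | [], _ => 0
  | p :: w, d => sg p d + wr w (nd p d)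

theorem nd_of {p : OPiece} {n : ℕ} {d : ℕ → Bool} {s : ℕ × (ℕ → Bool)}
    (h : p.below n d = some s) : s.2 = nd p d := by
  cases p with
  | birth i b => rw [(bl_birth h).2]; rfl
  | death i => rw [(bl_death h).2.2]; rfl
  | pos i => rw [(bl_pos h).2]; rfl
  | neg i => rw [(bl_neg h).2]; rfl

theorem wr_append {u w : OWord} {n : ℕ} {d : ℕ → Bool} {s : ℕ × (ℕ → Bool)}
    (h : below u n d = some s) : wr (u ++ w) d = wr u d + wr w s.2 := by
  induction u generalizing n d with
  | nil =>
    obtain rfl := bl_nil h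
    simp [wr]
  | cons p u ih =>
    obtain ⟨s1, h1, h2⟩ := bl_cons h
    rw [List.cons_append, wr, wr, ← nd_of h1, ih h2, add_assoc]

section
variable {R : Type} [CommRing R] [Par R] {m : ℕ}

def pc (R : Type) [CommRing R] [Par R] (m : ℕ) : OPiece → V R →ₗ[R] V R
  | birth i b => B i b
  | death i => D (m - 1) i
  | pos i => X m true i
  | neg i => X m false i

def nx (m : ℕ) : OPiece → ℕ
  | birth _ _ => m + 1
  | death _ => m - 1
  | pos _ => m
  | neg _ => m

def lv : ℕ → OWord → ℕ
  | m, [] => m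
  | m, p :: w => lv (nx m p) w

def opW (R : Type) [CommRing R] [Par R] : ℕ → OWord → V R →ₗ[R] V R
  | _, [] => LinearMap.id
  | m, p :: w => (opW R (nx m p) w).comp (pc R m p)

theorem opW_nil (m : ℕ) (v : V R) : opW R m [] v = v := rfl
theorem opW_cons (m : ℕ) (p : OPiece) (w : OWord) (v : V R) :
    opW R m (p :: w) v = opW R (nx m p) w (pc R m p v) := rfl

theorem lv_append (m : ℕ) (u w : OWord) : lv m (u ++ w) = lv (lv m u) w := by
  induction u generalizing m with
  | nil => rfl
  | cons p u ih => exact ih _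

theorem opW_append (m : ℕ) (u w : OWord) (v : V R) :
    opW R m (u ++ w) v = opW R (lv m u) w (opW R m u v) := by
  induction u generalizing m v with
  | nil => rfl
  | cons p u ih => exact ih _ _

theorem crmem (b : Bool) {i : ℕ} (h : i + 2 ≤ 2 * m) {d : ℕ → Bool} {v : V R}
    (hv : v ∈ W (R := R) m d) : X m b i v ∈ W (R := R) m (swpD i d) := by
  obtain ⟨m, rfl⟩ : ∃ m', m = m' + 1 := ⟨m - 1, by omega⟩
  exact (allRel m).1.hX b i (Nat.zero_le _) (by omega) d v hv

theorem pc_mem {p : OPiece} {d : ℕ → Bool} {s : ℕ × (ℕ → Bool)}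
    (h : p.below (2 * m) d = some s) {v : V R} (hv : v ∈ W (R := R) m d) :
    s.1 = 2 * nx m p ∧ pc R m p v ∈ W (R := R) (nx m p) s.2 := by
  cases p with
  | birth i b =>
    obtain ⟨h1, rfl⟩ := bl_birth h
    exact ⟨show 2 * m + 2 = 2 * (m + 1) by omega, B_memW hv h1 b⟩
  | death i =>
    obtain ⟨h1, h2, rfl⟩ := bl_death h
    refine ⟨show 2 * m - 2 = 2 * (m - 1) by omega, ?_⟩
    obtain ⟨m, rfl⟩ : ∃ m', m = m' + 1 := ⟨m - 1, by omega⟩
    exact (allRel m).2.hD i (by omega) d h2 v hv
  | pos i =>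
    obtain ⟨h1, rfl⟩ := bl_pos h
    exact ⟨rfl, crmem true h1 hv⟩
  | neg i =>
    obtain ⟨h1, rfl⟩ := bl_neg h
    exact ⟨rfl, crmem false h1 hv⟩

theorem opW_mem {w : OWord} {d : ℕ → Bool} {s : ℕ × (ℕ → Bool)}
    (h : below w (2 * m) d = some s) {v : V R} (hv : v ∈ W (R := R) m d) :
    s.1 = 2 * lv m w ∧ opW R m w v ∈ W (R := R) (lv m w) s.2 := by
  induction w generalizing m v d with
  | nil =>
    obtain rfl := bl_nil h
    exact ⟨rfl, hv⟩
  | cons p w ih =>
    obtain ⟨s', h1, h2⟩ := bl_cons h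
    obtain ⟨h3, h4⟩ := pc_mem h1 hv
    rw [h3] at h2
    exact ih h2 h4

/-! ### local moves -/

theorem fg_nil {l : OWord} (h : forget l = []) : l = [] := by
  cases l with
  | nil => rfl
  | cons p l => simp [forget] at h

theorem fg_cons {l : OWord} {P : Piece} {L : List Piece} (h : forget l = P :: L) :
    ∃ p l', l = p :: l' ∧ p.forget = P ∧ forget l' = L := by
  cases l with
  | nil => simp [forget] at h
  | cons p l =>
    simp only [forget, List.map_cons, List.cons.injEq] at h
    exact ⟨p, l, rfl, h.1, h.2⟩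

theorem fp_birth {p : OPiece} {i : ℕ} (h : p.forget = Piece.birth i) : ∃ b, p = birth i b := by
  cases p <;> simp [OPiece.forget] at h
  exact ⟨_, by rw [h]⟩

theorem fp_death {p : OPiece} {i : ℕ} (h : p.forget = Piece.death i) : p = death i := by
  cases p <;> simp [OPiece.forget] at h
  rw [h]

theorem fp_pos {p : OPiece} {i : ℕ} (h : p.forget = Piece.pos i) : p = pos i := by
  cases p <;> simp [OPiece.forget] at h
  rw [h]

theorem fp_neg {p : OPiece} {i : ℕ} (h : p.forget = Piece.neg i) : p = neg i := by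
  cases p <;> simp [OPiece.forget] at h
  rw [h]

theorem fg_one {l : OWord} {P : Piece} (h : forget l = [P]) : ∃ p, l = [p] ∧ p.forget = P := by
  obtain ⟨p, l', rfl, h1, h2⟩ := fg_cons h
  obtain rfl := fg_nil h2
  exact ⟨p, rfl, h1⟩

theorem fg_two {l : OWord} {P P' : Piece} (h : forget l = [P, P']) :
    ∃ p p', l = [p, p'] ∧ p.forget = P ∧ p'.forget = P' := by
  obtain ⟨p, l', rfl, h1, h2⟩ := fg_cons h
  obtain ⟨p', rfl, h3⟩ := fg_one h2
  exact ⟨p, p', rfl, h1, h3⟩

theorem fg_three {l : OWord} {P P' P'' : Piece} (h : forget l = [P, P', P'']) :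
    ∃ p p' p'', l = [p, p', p''] ∧ p.forget = P ∧ p'.forget = P' ∧ p''.forget = P'' := by
  obtain ⟨p, l', rfl, h1, h2⟩ := fg_cons h
  obtain ⟨p', p'', rfl, h3, h4⟩ := fg_two h2
  exact ⟨p, p', p'', rfl, h1, h3, h4⟩

theorem bl_two {p q : OPiece} {n : ℕ} {d : ℕ → Bool} {s : ℕ × (ℕ → Bool)}
    (h : below [p, q] n d = some s) :
    ∃ s', p.below n d = some s' ∧ q.below s'.1 s'.2 = some s := by
  obtain ⟨s', h1, h2⟩ := bl_cons h
  obtain ⟨s'', h3, h4⟩ := bl_cons h2
  obtain rfl := bl_nil h4
  exact ⟨s', h1, h3⟩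

/-- the two sides of a move agree -/
def Agree (R : Type) [CommRing R] [Par R] (m : ℕ) (l r : OWord) (d : ℕ → Bool) (v : V R) : Prop :=
  opW R m l v = opW R m r v ∧ lv m l = lv m r ∧ wr l d = wr r d

theorem ex_birth {i : ℕ} {b b' : Bool} {q1 q : OPiece} {d : ℕ → Bool} {s : ℕ × (ℕ → Bool)}
    (h : i ≤ q.forget.index) (hq : q1.forget = q.forget.moved (q.forget.index + 2))
    (h1 : below [birth i b, q1] (2 * m) d = some s)
    (h2 : below [q, birth i b'] (2 * m) d = some s) {v : V R} (hv : v ∈ W (R := R) m d) :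
    Agree R m [birth i b, q1] [q, birth i b'] d v := by
  obtain ⟨s1, h3, h4⟩ := bl_two h1
  obtain ⟨s2, h5, h6⟩ := bl_two h2
  obtain ⟨-, rfl⟩ := bl_birth h3
  have e6 := (bl_birth h6).2
  cases q with
  | birth j c' =>
    obtain ⟨c, rfl⟩ := fp_birth hq
    have h : i ≤ j := h
    obtain ⟨h7, rfl⟩ := bl_birth h5
    obtain ⟨-, rfl⟩ := bl_birth h4
    have e := congrArg Prod.snd e6
    have e1 := congrFun e i
    have e2 := congrFun e (j + 2)
    simp only [OPiece.forget, Piece.index] at e1 e2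
    rw [ins_lt (by omega), ins_l, ins_l] at e1
    rw [ins_l, ins_ge h, ins_l] at e2
    subst e1 e2
    exact ⟨bb h h7 _ _ (W_le hv), rfl, rfl⟩
  | death j =>
    have hq := fp_death hq
    subst hq
    have h : i ≤ j := h
    obtain ⟨h7, h8, rfl⟩ := bl_death h5
    obtain ⟨-, -, rfl⟩ := bl_death h4
    have e1 := congrFun (congrArg Prod.snd e6) i
    simp only [OPiece.forget, Piece.index] at e1
    rw [del_lt (by omega), ins_l, ins_l] at e1
    subst e1
    obtain ⟨m, rfl⟩ : ∃ m', m = m' + 1 := ⟨m - 1, by omega⟩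
    exact ⟨DB1 (i := i) (j := j) h (by omega) b h8 hv, rfl, rfl⟩
  | pos j =>
    have hq := fp_pos hq
    subst hq
    have h : i ≤ j := h
    obtain ⟨h7, rfl⟩ := bl_pos h5
    obtain ⟨-, rfl⟩ := bl_pos h4
    have e1 := congrFun (congrArg Prod.snd e6) i
    simp only [OPiece.forget, Piece.index] at e1
    rw [swp_lt (by omega), ins_l, ins_l] at e1
    subst e1
    refine ⟨(allRel m).1.xb true i j h h7 b v (W_le hv), rfl, ?_⟩
    simp only [wr, sg, nd, OPiece.forget, Piece.index]
    rw [ins_ge h, show j + 2 + 1 = (j + 1) + 2 by omega, ins_ge (by omega)]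
    ring
  | neg j =>
    have hq := fp_neg hq
    subst hq
    have h : i ≤ j := h
    obtain ⟨h7, rfl⟩ := bl_neg h5
    obtain ⟨-, rfl⟩ := bl_neg h4
    have e1 := congrFun (congrArg Prod.snd e6) i
    simp only [OPiece.forget, Piece.index] at e1
    rw [swp_lt (by omega), ins_l, ins_l] at e1
    subst e1
    refine ⟨(allRel m).1.xb false i j h h7 b v (W_le hv), rfl, ?_⟩
    simp only [wr, sg, nd, OPiece.forget, Piece.index]
    rw [ins_ge h, show j + 2 + 1 = (j + 1) + 2 by omega, ins_ge (by omega)]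
    ring

end

end

end Pool.Agent.Helper454.Wh.Homf
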