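import Pool.Agent.Helper454.Wh.Homf.E11

/-!
# Existence of the HOMFLY polynomial, part 12: the polynomial
-/

set_option autoImplicit false

namespace Pool.Agent.Helper454.Wh.Homf

open Pool.Agent.Helper454.Wh (insD delD swpD noD OPiece OWord below forget OClosed OStep OIsotopic
  ocircle HomflyRules Rlm lPow mPow IsHomfly dirs)
open Pool.Agent.Helper454.Wh.OPiece (birth death pos neg)
open Pool.Agent.Helper454.Kauf (LocalMove FirstMove Piece)
open Par LaurentPolynomial

noncomputable section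

set_option linter.unusedSectionVars false
set_option linter.unusedVariables false

/-! ### the ring -/

theorem lPow_add (i j : ℤ) : lPow (i + j) = lPow i * lPow j := by
  rw [lPow, lPow, lPow, T_add, map_mul]

theorem lPow_zero : lPow 0 = 1 := by
  rw [lPow, T_zero, map_one]

theorem mm : mPow 1 * mPow (-1) = 1 := by
  rw [mPow, mPow, ← T_add]
  simp

instance : Par Rlm where
  a := lPow (-1)
  ai := lPow 1
  z := mPow 1
  zi := mPow (-1)
  dl := mPow (-1) * (lPow (-1) - lPow 1)
  h1 := by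
    rw [← lPow_add]
    exact lPow_zero
  h2 := by rw [← mul_assoc, mm, one_mul]
  h3 := mm

theorem dl_ne : (dl : Rlm) ≠ 0 := by
  intro h
  have e : (lPow (-1) - lPow 1 : Rlm) = 0 := by
    have := h2 (R := Rlm)
    rw [h, mul_zero] at this
    exact this.symm
  have e1 : lPow (-1) = lPow 1 := sub_eq_zero.1 e
  have e2 : (T (-1) : LaurentPolynomial ℤ) = T 1 := by
    have := congrArg (fun f : Rlm => f.coeff 0) e1
    simpa [lPow] using this
  have e3 := congrArg (fun f : LaurentPolynomial ℤ => f.coeff 1) e2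
  simp at e3

theorem dl_cancel {u v : Rlm} (h : (dl : Rlm) * u = dl * v) : u = v :=
  mul_left_cancel₀ dl_ne h

section
variable {R : Type} [CommRing R] [Par R] {m : ℕ}

/-- the empty state -/
def v0 (R : Type) [CommRing R] : V R := Finsupp.single [] 1

theorem v0_mem : v0 R ∈ W (R := R) 0 noD := Submodule.subset_span ⟨[], rfl, rfl, rfl⟩

/-- the value of a diagram (normalised to be `1` for the empty diagram) -/
def ev (R : Type) [CommRing R] [Par R] (w : OWord) : R := opW R 0 w (v0 R) []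

/-- the value of a diagram (normalised to be `1` for the circle) -/
def ev1 (R : Type) [CommRing R] [Par R] (w : OWord) : R :=
  opW R 0 w.dropLast (v0 R) [(0, true)] + opW R 0 w.dropLast (v0 R) [(0, false)]

theorem Val_one (x : V R) (hx : x ∈ Val (R := R) 1) :
    D 0 0 x [] = (dl : R) * (x [(0, true)] + x [(0, false)]) := by
  have h := Val_ext (R := R) (m := 0)
    ((Finsupp.lsingle []).comp ((Finsupp.lapply []).comp (D 0 0)))
    ((Finsupp.lsingle []).comp ((dl : R) • ((Finsupp.lapply [(0, true)] : V R →ₗ[R] R) +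
      (Finsupp.lapply [(0, false)] : V R →ₗ[R] R)))) ?_ x hx
  · have h' := congrArg (fun v : V R => v []) h
    rw [mul_add]
    simpa using h'
  · intro e he b d v hv
    obtain rfl : e = 0 := by omega
    have hz : ∀ c, P 0 b v [(0, c)] = if c = b then v [] else 0 := by
      intro c
      split_ifs with hc
      · subst hc
        exact P_apply 0 c [] v
      · rw [P_def]
        refine Finsupp.mapDomain_of_notMem_range _ _ ?_
        rintro ⟨t, ht⟩
        simp only [List.cons.injEq, Prod.mk.injEq] at ht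
        exact hc ht.1.2.symm
    simp only [LinearMap.comp_apply, LinearMap.smul_apply, LinearMap.add_apply,
      Finsupp.lapply_apply, hz, D0_zero]
    cases b <;> simp

/-! ### closed diagrams -/

theorem last_death {w : OWord} {p : OPiece} (h : OClosed (w ++ [p])) :
    p = death 0 ∧ ∃ d, below w 0 noD = some (2, d) := by
  rw [OClosed, Option.map_eq_some_iff] at h
  obtain ⟨s, h1, h0⟩ := h
  obtain ⟨s1, h2, h3⟩ := bl_append h1
  obtain ⟨s2, h4, h5⟩ := bl_cons h3
  obtain rfl := bl_nil h5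
  obtain ⟨n, d⟩ := s1
  cases p with
  | birth i b =>
    obtain ⟨-, rfl⟩ := bl_birth h4
    simp at h0
  | death i =>
    obtain ⟨h6, -, rfl⟩ := bl_death h4
    simp only at h0 h6
    obtain rfl : i = 0 := by omega
    obtain rfl : n = 2 := by omega
    exact ⟨rfl, d, h2⟩
  | pos i =>
    obtain ⟨h6, rfl⟩ := bl_pos h4
    simp only at h0 h6
    omega
  | neg i =>
    obtain ⟨h6, rfl⟩ := bl_neg h4
    simp only at h0 h6
    omega

theorem ev_ev1 {w : OWord} (h : OClosed w) (hw : w ≠ []) : ev R w = (dl : R) * ev1 R w := by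
  obtain ⟨w', p, rfl⟩ : ∃ w' p, w = w' ++ [p] :=
    ⟨w.dropLast, w.getLast hw, (List.dropLast_append_getLast hw).symm⟩
  obtain ⟨rfl, d, h1⟩ := last_death h
  obtain ⟨h2, h3⟩ := opW_mem (R := R) (m := 0) h1 v0_mem
  have h2 : lv 0 w' = 1 := by
    have h2 : 2 = 2 * lv 0 w' := h2
    omega
  rw [h2] at h3
  rw [ev, ev1, List.dropLast_concat, opW_append, h2, ← Val_one _ (W_le h3)]
  rfl

/-- the state after `x` -/
theorem split3 {x l y : OWord} (h : OClosed (x ++ l ++ y)) :
    ∃ s t u, below x 0 noD = some s ∧ below l s.1 s.2 = some t ∧ below y t.1 t.2 = some u ∧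
      u.1 = 0 := by
  rw [OClosed, Option.map_eq_some_iff] at h
  obtain ⟨u, h1, h0⟩ := h
  obtain ⟨t, h2, h3⟩ := bl_append h1
  obtain ⟨s, h4, h5⟩ := bl_append h2
  exact ⟨s, t, u, h4, h5, h3, h0⟩

theorem closed_of {x l y : OWord} {s t u : ℕ × (ℕ → Bool)} (h1 : below x 0 noD = some s)
    (h2 : below l s.1 s.2 = some t) (h3 : below y t.1 t.2 = some u) (h4 : u.1 = 0) :
    OClosed (x ++ l ++ y) := by
  rw [OClosed, bl_append_of (bl_append_of h1 h2) h3]
  simp [h4]

theorem ev_split (x l y : OWord) : ev R (x ++ l ++ y) =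
    opW R (lv (lv 0 x) l) y (opW R (lv 0 x) l (opW R 0 x (v0 R))) [] := by
  rw [ev, List.append_assoc, opW_append, opW_append]

theorem wr_split {x l y : OWord} {s t : ℕ × (ℕ → Bool)} (h1 : below x 0 noD = some s)
    (h2 : below l s.1 s.2 = some t) :
    wr (x ++ l ++ y) noD = wr x noD + wr l s.2 + wr y t.2 := by
  rw [wr_append (bl_append_of h1 h2), wr_append h1]

theorem app_sub (f : V R →ₗ[R] V R) {u v w : V R} {c : R} (h : u - v = c • w) :
    f u [] - f v [] = c * f w [] := by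
  rw [← Finsupp.sub_apply, ← map_sub, h, map_smul, Finsupp.smul_apply, smul_eq_mul]

end

/-- the HOMFLY polynomial -/
def Lam (w : OWord) : Rlm := lPow (wr w noD) * ev1 Rlm w

theorem Lam_dl {w : OWord} (h : OClosed w) (hw : w ≠ []) :
    (dl : Rlm) * Lam w = lPow (wr w noD) * ev Rlm w := by
  rw [Lam, ev_ev1 h hw]
  ring

theorem Lam_split {x l y : OWord} {s t u : ℕ × (ℕ → Bool)} (h1 : below x 0 noD = some s)
    (h2 : below l s.1 s.2 = some t) (h3 : below y t.1 t.2 = some u) (h4 : u.1 = 0)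
    (hne : x ++ l ++ y ≠ []) : (dl : Rlm) * Lam (x ++ l ++ y) =
      lPow (wr x noD + wr y t.2) * opW Rlm (lv (lv 0 x) l) y
        (lPow (wr l s.2) • opW Rlm (lv 0 x) l (opW Rlm 0 x (v0 Rlm))) [] := by
  rw [Lam_dl (closed_of h1 h2 h3 h4) hne, wr_split h1 h2, ev_split, map_smul, Finsupp.smul_apply,
    smul_eq_mul, ← mul_assoc, ← lPow_add]
  congr 2
  ring

/-- curls -/
theorem first_op {m : ℕ} {l r : OWord} (hlr : FirstMove (forget l) (forget r)) {d : ℕ → Bool}
    {t : ℕ × (ℕ → Bool)} (h1 : below l (2 * m) d = some t) (h2 : below r (2 * m) d = some t)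
    {v : V Rlm} (hv : v ∈ W (R := Rlm) m d) :
    lv m l = lv m r ∧ lPow (wr l d) • opW Rlm m l v = lPow (wr r d) • opW Rlm m r v := by
  generalize hL : forget l = L' at hlr
  generalize hR : forget r = R' at hlr
  cases hlr with
  | birthPos i =>
    obtain ⟨p1, q1, rfl, hp, hq⟩ := fg_two hL
    obtain ⟨p2, rfl, hp2⟩ := fg_one hR
    obtain ⟨b, rfl⟩ := fp_birth hp
    obtain rfl := fp_pos hq
    obtain ⟨b', rfl⟩ := fp_birth hp2
    obtain ⟨s1, h3, h4⟩ := bl_two h1
    obtain ⟨s2, h5, h6⟩ := bl_cons h2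
    obtain rfl := bl_nil h6
    obtain ⟨h7, rfl⟩ := bl_birth h3
    obtain ⟨-, rfl⟩ := bl_birth h5
    have e := congrFun (congrArg Prod.snd (bl_pos h4).2) i
    simp only at e
    rw [swp_l, ins_l, ins_r] at e
    subst e
    refine ⟨rfl, ?_⟩
    have hc := (allRel (R := Rlm) m).1.curl true i (Nat.zero_le _) h7 b v (W_le hv)
    have hw : wr [birth i b, pos i] d = -1 := by
      show 0 + (eps (insD i b d i) (insD i b d (i + 1)) + 0) = -1
      rw [ins_l, ins_r, eps_not', eps_self]
      rfl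
    show lPow (wr [birth i b, pos i] d) • X (m + 1) true i (B i b v) = lPow 0 • B i (!b) v
    rw [hw, hc, smul_smul]
    show (lPow (-1) * lPow 1) • _ = _
    rw [← lPow_add]
    rfl
  | birthNeg i =>
    obtain ⟨p1, q1, rfl, hp, hq⟩ := fg_two hL
    obtain ⟨p2, rfl, hp2⟩ := fg_one hR
    obtain ⟨b, rfl⟩ := fp_birth hp
    obtain rfl := fp_neg hq
    obtain ⟨b', rfl⟩ := fp_birth hp2
    obtain ⟨s1, h3, h4⟩ := bl_two h1
    obtain ⟨s2, h5, h6⟩ := bl_cons h2
    obtain rfl := bl_nil h6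
    obtain ⟨h7, rfl⟩ := bl_birth h3
    obtain ⟨-, rfl⟩ := bl_birth h5
    have e := congrFun (congrArg Prod.snd (bl_neg h4).2) i
    simp only at e
    rw [swp_l, ins_l, ins_r] at e
    subst e
    refine ⟨rfl, ?_⟩
    have hc := (allRel (R := Rlm) m).1.curl false i (Nat.zero_le _) h7 b v (W_le hv)
    have hw : wr [birth i b, neg i] d = 1 := by
      show 0 + (-eps (insD i b d i) (insD i b d (i + 1)) + 0) = 1
      rw [ins_l, ins_r, eps_not', eps_self]
      rfl
    show lPow (wr [birth i b, neg i] d) • X (m + 1) false i (B i b v) = lPow 0 • B i (!b) v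
    rw [hw, hc, smul_smul]
    show (lPow 1 * lPow (-1)) • _ = _
    rw [← lPow_add]
    rfl
  | deathPos i =>
    obtain ⟨p1, q1, rfl, hp, hq⟩ := fg_two hL
    obtain ⟨p2, rfl, hp2⟩ := fg_one hR
    obtain rfl := fp_pos hp
    obtain rfl := fp_death hq
    obtain rfl := fp_death hp2
    obtain ⟨s2, h5, h6⟩ := bl_cons h2
    obtain rfl := bl_nil h6
    obtain ⟨h7, h8, rfl⟩ := bl_death h5
    obtain ⟨m, rfl⟩ : ∃ m', m = m' + 1 := ⟨m - 1, by omega⟩
    refine ⟨rfl, ?_⟩
    have hc := Dcurl (R := Rlm) true (i := i) (by omega) h8 hv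
    have hw : wr [pos i, death i] d = -1 := by
      show eps (d i) (d (i + 1)) + (0 + 0) = -1
      rw [h8, eps_not', eps_self]
      rfl
    show lPow (wr [pos i, death i] d) • D m i (X (m + 1) true i v) = lPow 0 • D m i v
    rw [hw, hc, smul_smul]
    show (lPow (-1) * lPow 1) • _ = _
    rw [← lPow_add]
    rfl
  | deathNeg i =>
    obtain ⟨p1, q1, rfl, hp, hq⟩ := fg_two hL
    obtain ⟨p2, rfl, hp2⟩ := fg_one hR
    obtain rfl := fp_neg hp
    obtain rfl := fp_death hq
    obtain rfl := fp_death hp2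
    obtain ⟨s2, h5, h6⟩ := bl_cons h2
    obtain rfl := bl_nil h6
    obtain ⟨h7, h8, rfl⟩ := bl_death h5
    obtain ⟨m, rfl⟩ : ∃ m', m = m' + 1 := ⟨m - 1, by omega⟩
    refine ⟨rfl, ?_⟩
    have hc := Dcurl (R := Rlm) false (i := i) (by omega) h8 hv
    have hw : wr [neg i, death i] d = 1 := by
      show -eps (d i) (d (i + 1)) + (0 + 0) = 1
      rw [h8, eps_not', eps_self]
      rfl
    show lPow (wr [neg i, death i] d) • D m i (X (m + 1) false i v) = lPow 0 • D m i v
    rw [hw, hc, smul_smul]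
    show (lPow 1 * lPow (-1)) • _ = _
    rw [← lPow_add]
    rfl

theorem move_op {m : ℕ} {l r : OWord}
    (hlr : LocalMove (forget l) (forget r) ∨ FirstMove (forget l) (forget r)) {d : ℕ → Bool}
    {t : ℕ × (ℕ → Bool)} (h1 : below l (2 * m) d = some t) (h2 : below r (2 * m) d = some t)
    {v : V Rlm} (hv : v ∈ W (R := Rlm) m d) :
    lv m l = lv m r ∧ lPow (wr l d) • opW Rlm m l v = lPow (wr r d) • opW Rlm m r v := by
  rcases hlr with h | h
  · obtain ⟨e1, e2, e3⟩ := local_op h h1 h2 hv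
    exact ⟨e2, by rw [e1, e3]⟩
  · exact first_op h h1 h2 hv

theorem left_ne {l r : OWord}
    (hlr : LocalMove (forget l) (forget r) ∨ FirstMove (forget l) (forget r)) : l ≠ [] := by
  rintro rfl
  generalize hL : forget [] = L' at hlr
  generalize hR : forget r = R' at hlr
  rcases hlr with h | h
  · cases h <;> exact absurd hL (by simp [forget])
  · cases h <;> exact absurd hL (by simp [forget])

theorem right_ne {l r : OWord}
    (hlr : LocalMove (forget l) (forget r) ∨ FirstMove (forget l) (forget r)) {n : ℕ}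
    {d : ℕ → Bool} {t : ℕ × (ℕ → Bool)} (h1 : below l n d = some t) : r ≠ [] ∨ 1 ≤ n := by
  by_cases hr : r = []
  · right
    subst hr
    generalize hL : forget l = L' at hlr
    generalize hR : forget [] = R' at hlr
    rcases hlr with h | h
    · cases h with
      | exchange p q h => exact absurd hR (by simp [forget])
      | zigzag₁ i =>
        obtain ⟨p1, q1, rfl, hp, hq⟩ := fg_two hL
        obtain ⟨b, rfl⟩ := fp_birth hp
        obtain rfl := fp_death hq
        obtain ⟨s1, h3, h4⟩ := bl_two h1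
        obtain ⟨h5, rfl⟩ := bl_birth h3
        obtain ⟨h6, h7, rfl⟩ := bl_death h4
        simp only at h6
        omega
      | zigzag₂ i =>
        obtain ⟨p1, q1, rfl, hp, hq⟩ := fg_two hL
        obtain ⟨b, rfl⟩ := fp_birth hp
        obtain ⟨s1, h3, h4⟩ := bl_two h1
        obtain ⟨h5, rfl⟩ := bl_birth h3
        omega
      | slideBirth₁ i => exact absurd hR (by simp [forget])
      | slideBirth₂ i => exact absurd hR (by simp [forget])
      | slideDeath₁ i => exact absurd hR (by simp [forget])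
      | slideDeath₂ i => exact absurd hR (by simp [forget])
      | second₁ i =>
        obtain ⟨p1, q1, rfl, hp, hq⟩ := fg_two hL
        obtain rfl := fp_pos hp
        obtain ⟨s1, h3, h4⟩ := bl_two h1
        obtain ⟨h5, rfl⟩ := bl_pos h3
        omega
      | second₂ i =>
        obtain ⟨p1, q1, rfl, hp, hq⟩ := fg_two hL
        obtain rfl := fp_neg hp
        obtain ⟨s1, h3, h4⟩ := bl_two h1
        obtain ⟨h5, rfl⟩ := bl_neg h3
        omega
      | third i => exact absurd hR (by simp [forget])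
    · cases h <;> exact absurd hR (by simp [forget])
  · exact Or.inl hr

theorem ne_nil_of {x y r : OWord} {s : ℕ × (ℕ → Bool)} (h : below x 0 noD = some s)
    (hk : 1 ≤ s.1) : x ++ r ++ y ≠ [] := by
  cases x with
  | nil =>
    obtain rfl := bl_nil h
    exact absurd hk (by simp)
  | cons p x => simp

theorem Lam_step {D E : OWord} (h : OStep D E) : Lam D = Lam E := by
  obtain ⟨x, l, r, y, n, d, hlr, hx, hlr2, c1, c2⟩ := h
  apply dl_cancel
  obtain ⟨s, t, u, h1, h2, h3, h4⟩ := split3 c1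
  rw [hx] at h1
  obtain rfl := (Option.some.inj h1).symm
  have h2' : below r n d = some t := by rw [← hlr2]; exact h2
  have n1 : x ++ l ++ y ≠ [] := by
    have := left_ne hlr
    simp [this]
  have n2 : x ++ r ++ y ≠ [] := by
    rcases right_ne hlr h2 with h | h
    · simp [h]
    · exact ne_nil_of hx h
  obtain ⟨hk, hv⟩ := opW_mem (R := Rlm) (m := 0) hx v0_mem
  simp only at hk hv h2
  rw [Lam_split hx h2 h3 h4 n1, Lam_split hx h2' h3 h4 n2]
  rw [hk] at h2 h2'
  obtain ⟨e1, e2⟩ := move_op hlr h2 h2' hv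
  simp only [e1, e2]

theorem Lam_isotopy (D E : OWord) (h : OIsotopic D E) : Lam D = Lam E := by
  induction h with
  | rel D E h => exact Lam_step h
  | refl D => rfl
  | symm D E _ ih => exact ih.symm
  | trans D E F _ _ ih1 ih2 => exact ih1.trans ih2

theorem dirs_of {x : OWord} {s : ℕ × (ℕ → Bool)} (h : below x 0 noD = some s) :
    dirs x = s.2 := by
  rw [dirs, h]
  rfl

theorem swp_par {i : ℕ} {d : ℕ → Bool} (h : d i = d (i + 1)) : swpD i d = d := by
  funext k
  simp only [swpD]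
  split_ifs with h1 h2
  · rw [h1, h]
  · rw [h2, h]
  · rfl

theorem del_ins {i : ℕ} (d : ℕ → Bool) (h : d (i + 1) = !d i) :
    insD i (d (i + 1)) (delD i d) = swpD i d := by
  funext k
  simp only [insD, delD, swpD]
  split_ifs <;> first
    | rfl
    | omega
    | (rw [h, Bool.not_not])
    | (congr 1; omega)

theorem Lam_parallel (x : OWord) (i : ℕ) (y : OWord) (h : OClosed (x ++ [pos i] ++ y))
    (hd : dirs x i = dirs x (i + 1)) :
    lPow (-1) • Lam (x ++ [pos i] ++ y) - lPow 1 • Lam (x ++ [neg i] ++ y) =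
      mPow 1 • Lam (x ++ y) := by
  obtain ⟨⟨n, d⟩, t, u, h1, h2, h3, h4⟩ := split3 h
  rw [dirs_of h1] at hd
  simp only at hd h2
  obtain ⟨s', h5, h6⟩ := bl_cons h2
  obtain ⟨h7, rfl⟩ := bl_pos h5
  obtain rfl := bl_nil h6
  have w1 : below [neg i] n d = some (n, swpD i d) := by
    refine bl_cons_of (s' := (n, swpD i d)) ?_ rfl
    simp [OPiece.below, h7]
  have w2 : below [] n d = some (n, swpD i d) := by rw [swp_par hd]; rfl
  have n2 : x ++ [] ++ y ≠ [] := ne_nil_of h1 (by simp only; omega)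
  have e0 : x ++ y = x ++ [] ++ y := by simp
  obtain ⟨hk, hv⟩ := opW_mem (R := Rlm) (m := 0) h1 v0_mem
  simp only at hk hv
  apply dl_cancel
  rw [e0]
  simp only [smul_eq_mul]
  rw [mul_sub, mul_left_comm, mul_left_comm (dl : Rlm) (lPow 1), mul_left_comm (dl : Rlm) (mPow 1),
    Lam_split h1 h2 h3 h4 (by simp), Lam_split h1 w1 h3 h4 (by simp), Lam_split h1 w2 h3 h4 n2]
  obtain ⟨m, hm⟩ : ∃ m', lv 0 x = m' + 1 := ⟨lv 0 x - 1, by omega⟩
  rw [hm] at hv ⊢
  have e := (allRel (R := Rlm) m).2.skp i (by omega) d hd.symm _ hv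
  have g1 : wr [pos i] d = 1 := by
    show eps (d i) (d (i + 1)) + 0 = 1
    rw [hd, eps_self]
    rfl
  have g2 : wr [neg i] d = -1 := by
    show -eps (d i) (d (i + 1)) + 0 = -1
    rw [hd, eps_self]
    rfl
  have g3 : wr [] d = 0 := rfl
  simp only [g1, g2, g3, map_smul, Finsupp.smul_apply, smul_eq_mul, lPow_zero, one_mul]
  have e'' := app_sub (opW Rlm (m + 1) y) e
  have hl : lPow (-1) * lPow 1 = 1 := by
    rw [← lPow_add]
    exact lPow_zero
  show lPow (-1) * (lPow (wr x noD + wr y (swpD i d)) *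
      (lPow 1 * opW Rlm (m + 1) y (X (m + 1) true i (opW Rlm 0 x (v0 Rlm))) [])) -
    lPow 1 * (lPow (wr x noD + wr y (swpD i d)) *
      (lPow (-1) * opW Rlm (m + 1) y (X (m + 1) false i (opW Rlm 0 x (v0 Rlm))) [])) =
    mPow 1 * (lPow (wr x noD + wr y (swpD i d)) *
      opW Rlm (m + 1) y (opW Rlm 0 x (v0 Rlm)) [])
  have e3 : opW Rlm (m + 1) y (X (m + 1) true i (opW Rlm 0 x (v0 Rlm))) [] -
      opW Rlm (m + 1) y (X (m + 1) false i (opW Rlm 0 x (v0 Rlm))) [] =
      mPow 1 * opW Rlm (m + 1) y (opW Rlm 0 x (v0 Rlm)) [] := e''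
  generalize opW Rlm (m + 1) y (X (m + 1) true i (opW Rlm 0 x (v0 Rlm))) [] = A at e3 ⊢
  generalize opW Rlm (m + 1) y (X (m + 1) false i (opW Rlm 0 x (v0 Rlm))) [] = A' at e3 ⊢
  generalize opW Rlm (m + 1) y (opW Rlm 0 x (v0 Rlm)) [] = A'' at e3 ⊢
  generalize lPow (wr x noD + wr y (swpD i d)) = K
  linear_combination (K * A - K * A') * hl + K * e3

theorem Lam_anti (x : OWord) (i : ℕ) (y : OWord) (h : OClosed (x ++ [neg i] ++ y))
    (hd : dirs x i ≠ dirs x (i + 1)) :
    lPow (-1) • Lam (x ++ [neg i] ++ y) - lPow 1 • Lam (x ++ [pos i] ++ y) =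
      mPow 1 • Lam (x ++ [death i, birth i (dirs x (i + 1))] ++ y) := by
  obtain ⟨⟨n, d⟩, t, u, h1, h2, h3, h4⟩ := split3 h
  rw [dirs_of h1] at hd ⊢
  simp only at hd h2 ⊢
  have hd' : d (i + 1) = !d i := by
    revert hd
    cases d i <;> cases d (i + 1) <;> simp
  obtain ⟨s', h5, h6⟩ := bl_cons h2
  obtain ⟨h7, rfl⟩ := bl_neg h5
  obtain rfl := bl_nil h6
  have w1 : below [pos i] n d = some (n, swpD i d) := by
    refine bl_cons_of (s' := (n, swpD i d)) ?_ rfl
    simp [OPiece.below, h7]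
  have w2 : below [death i, birth i (d (i + 1))] n d = some (n, swpD i d) := by
    refine bl_cons_of (s' := (n - 2, delD i d)) ?_
      (bl_cons_of (s' := (n - 2 + 2, insD i (d (i + 1)) (delD i d))) ?_ ?_)
    · simp [OPiece.below, h7, hd']
    · have : i ≤ n - 2 := by omega
      simp [OPiece.below, this]
    · rw [del_ins d hd', Nat.sub_add_cancel (by omega)]
      rfl
  obtain ⟨hk, hv⟩ := opW_mem (R := Rlm) (m := 0) h1 v0_mem
  simp only at hk hv
  apply dl_cancel
  simp only [smul_eq_mul]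
  rw [mul_sub, mul_left_comm, mul_left_comm (dl : Rlm) (lPow 1), mul_left_comm (dl : Rlm) (mPow 1),
    Lam_split h1 h2 h3 h4 (by simp), Lam_split h1 w1 h3 h4 (by simp),
    Lam_split h1 w2 h3 h4 (by simp)]
  obtain ⟨m, hm⟩ : ∃ m', lv 0 x = m' + 1 := ⟨lv 0 x - 1, by omega⟩
  rw [hm] at hv ⊢
  have e := (allRel (R := Rlm) m).2.ska i (by omega) d hd' _ hv
  have g1 : wr [pos i] d = -1 := by
    show eps (d i) (d (i + 1)) + 0 = -1
    rw [hd', eps_not', eps_self]
    rfl
  have g2 : wr [neg i] d = 1 := by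
    show -eps (d i) (d (i + 1)) + 0 = 1
    rw [hd', eps_not', eps_self]
    rfl
  have g3 : wr [death i, birth i (d (i + 1))] d = 0 := rfl
  simp only [g1, g2, g3, map_smul, Finsupp.smul_apply, smul_eq_mul, lPow_zero, one_mul]
  have e'' := app_sub (opW Rlm (m + 1) y) e
  rw [← hd'] at e''
  have hl : lPow (-1) * lPow 1 = 1 := by
    rw [← lPow_add]
    exact lPow_zero
  show lPow (-1) * (lPow (wr x noD + wr y (swpD i d)) *
      (lPow 1 * opW Rlm (m + 1) y (X (m + 1) false i (opW Rlm 0 x (v0 Rlm))) [])) -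
    lPow 1 * (lPow (wr x noD + wr y (swpD i d)) *
      (lPow (-1) * opW Rlm (m + 1) y (X (m + 1) true i (opW Rlm 0 x (v0 Rlm))) [])) =
    mPow 1 * (lPow (wr x noD + wr y (swpD i d)) *
      opW Rlm (m + 1) y (B i (d (i + 1)) (D m i (opW Rlm 0 x (v0 Rlm)))) [])
  have e3 : opW Rlm (m + 1) y (X (m + 1) false i (opW Rlm 0 x (v0 Rlm))) [] -
      opW Rlm (m + 1) y (X (m + 1) true i (opW Rlm 0 x (v0 Rlm))) [] =
      mPow 1 * opW Rlm (m + 1) y (B i (d (i + 1)) (D m i (opW Rlm 0 x (v0 Rlm)))) [] := e''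
  generalize opW Rlm (m + 1) y (X (m + 1) false i (opW Rlm 0 x (v0 Rlm))) [] = A at e3 ⊢
  generalize opW Rlm (m + 1) y (X (m + 1) true i (opW Rlm 0 x (v0 Rlm))) [] = A' at e3 ⊢
  generalize opW Rlm (m + 1) y (B i (d (i + 1)) (D m i (opW Rlm 0 x (v0 Rlm)))) [] = A'' at e3 ⊢
  generalize lPow (wr x noD + wr y (swpD i d)) = K
  linear_combination (K * A - K * A') * hl + K * e3

theorem Lam_rules : HomflyRules (lPow 1) (lPow (-1)) (mPow 1) Lam where
  isotopy := Lam_isotopy
  parallel x i y h hd := Lam_parallel x i y h hd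
  antiparallel x i y h hd := Lam_anti x i y h hd

theorem Lam_circle : Lam ocircle = 1 := by
  have h1 : wr ocircle noD = 0 := rfl
  have h2 : opW Rlm 0 ocircle.dropLast (v0 Rlm) = B 0 true (v0 Rlm) := rfl
  rw [Lam, h1, lPow_zero, one_mul, ev1, h2, B_zero, P_apply, v0, Finsupp.single_eq_same, P_single]
  simp

/-- the function `Lam` is the HOMFLY polynomial -/
theorem isHomfly : IsHomfly Lam := ⟨Lam_rules, Lam_circle⟩

/-- the HOMFLY polynomial exists -/
theorem exists_homfly : ∃ Λ : OWord → Rlm, IsHomfly Λ := ⟨Lam, isHomfly⟩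

end

end Pool.Agent.Helper454.Wh.Homf
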