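import Pool.Agent.Helper454.Wh.Homf.E3

/-!
# Existence of the HOMFLY polynomial, part 4: sliding through a death
-/

set_option autoImplicit false

namespace Pool.Agent.Helper454.Wh.Homf

open Pool.Agent.Helper454.Wh (insD delD swpD noD)
open Par

noncomputable section

set_option linter.unusedSectionVars false

theorem swp_l (i : ℕ) (d : ℕ → Bool) : swpD i d i = d (i + 1) := by simp [swpD]
theorem swp_r (i : ℕ) (d : ℕ → Bool) : swpD i d (i + 1) = d i := by simp [swpD]
theorem swp_lt {i j : ℕ} (h : j < i) (d : ℕ → Bool) : swpD i d j = d j := by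
  simp only [swpD]; split_ifs <;> (first | rfl | omega | contradiction | assumption | (congr 1; omega) | (symm; assumption) | (simp_all; done) | (rename_i h; rw [← h]; congr 1; omega))
theorem swp_gt {i j : ℕ} (h : i + 1 < j) (d : ℕ → Bool) : swpD i d j = d j := by
  simp only [swpD]; split_ifs <;> (first | rfl | omega | contradiction | assumption | (congr 1; omega) | (symm; assumption) | (simp_all; done) | (rename_i h; rw [← h]; congr 1; omega))

section
variable {R : Type} [CommRing R] [Par R] {m : ℕ}

theorem z_cancel {u v : V R} (h : (z : R) • u = (z : R) • v) : u = v := by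
  have e := congrArg (fun w => (zi : R) • w) h
  simpa only [smul_smul, mul_comm (zi : R) z, h3, one_smul] using e

theorem Rel.braidPP (H : Rel R 0 m) (c : Bool) {j : ℕ} (hj : j + 1 ≤ 2 * m) {v : V R}
    (hv : v ∈ Val (R := R) (m + 1)) :
    X (m + 1) c j (X (m + 1) true (j + 1) (X (m + 1) true j v)) =
      X (m + 1) true (j + 1) (X (m + 1) true j (X (m + 1) c (j + 1) v)) := by
  cases c
  · exact mixP (S := (Val (R := R) (m + 1) : Set (V R))) (H.mem false (j + 1) (by omega) (by omega))
      (H.mem true (j + 1) (by omega) hj) (H.pn (j + 1) (by omega) (by omega))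
      (H.np j (by omega) (by omega)) (H.mem true j (by omega) (by omega))
      (fun v hv => (H.third j (by omega) hj v hv).symm) v hv
  · exact H.third j (by omega) hj v hv

/-- sliding a crossing through a death -/
theorem slideD (H : Rel R 0 m) (HD : RelD R m) (b : Bool) {i : ℕ} (hi : i + 1 ≤ 2 * m)
    {d : ℕ → Bool} (hd : d (i + 2) = !d i) {v : V R} (hv : v ∈ W (R := R) (m + 1) d) :
    D m i (X (m + 1) b (i + 1) v) = D m (i + 1) (X (m + 1) (!b) i v) := by
  have m1 : ∀ c j, j ≤ 2 * m → ∀ d, ∀ w ∈ W (R := R) (m + 1) d,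
      X (m + 1) c j w ∈ W (R := R) (m + 1) (swpD j d) := fun c j hj => H.hX c j (by omega) hj
  have key : ∀ d : ℕ → Bool, (d (i + 2) = !d (i + 1)) → ∀ w ∈ W (R := R) (m + 1) d,
      D m i (X (m + 1) b (i + 1) (X (m + 1) b i w)) = D m (i + 1) w := by
    intro d hd w hw
    have hx : X (m + 1) b (i + 1) (X (m + 1) b i w) ∈
        W (R := R) (m + 1) (swpD (i + 1) (swpD i d)) :=
      m1 _ _ hi _ _ (m1 _ _ (by omega) _ _ hw)
    have hx0 : swpD (i + 1) (swpD i d) i = d (i + 1) := by
      rw [swp_lt (by omega), swp_l]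
    have hx1 : swpD (i + 1) (swpD i d) (i + 1) = d (i + 2) := by
      rw [swp_l, swp_gt (by omega)]
    have s1 := HD.ska i (by omega) _ (by rw [hx0, hx1, hd]) _ hx
    rw [hx0] at s1
    have s2 := HD.ska (i + 1) hi d hd w hw
    have hDw : D m (i + 1) w ∈ Val (R := R) m := W_le (HD.hD (i + 1) hi d hd w hw)
    refine Binj i (!d (i + 1)) ?_
    apply z_cancel
    have e1 : B i (!d (i + 1)) (D m (i + 1) w) =
        X (m + 1) b (i + 1) (X (m + 1) b i (B (i + 1) (!d (i + 1)) (D m (i + 1) w))) := by
      have s1 := H.slide (!b) i (by omega) hi (!d (i + 1)) _ hDw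
      rw [Bool.not_not] at s1
      rw [← s1]
      cases b
      · rw [Bool.not_false, H.np _ (by omega) hi _ (B_mem hDw (by omega) _)]
      · rw [Bool.not_true, H.pn _ (by omega) hi _ (B_mem hDw (by omega) _)]
    have e2 : (z : R) • X (m + 1) b (i + 1) (X (m + 1) b i
        (B (i + 1) (!d (i + 1)) (D m (i + 1) w))) =
        X (m + 1) b (i + 1) (X (m + 1) b i
          ((z : R) • B (i + 1) (!d (i + 1)) (D m (i + 1) w))) := by
      rw [map_smul, map_smul]
    rw [← s1, e1, e2, ← s2]
    simp only [map_sub]
    have hw' := W_le hw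
    cases b
    · rw [H.braidN true (by omega) hi hw', H.braidN false (by omega) hi hw']
    · rw [H.braidPP true hi hw', H.braidPP false hi hw']
  have e := key (swpD i d) (by rw [swp_gt (by omega), swp_r, hd]) _ (m1 (!b) i (by omega) d v hv)
  rw [← e]
  cases b
  · rw [Bool.not_false, H.np _ (by omega) (by omega) _ (W_le hv)]
  · rw [Bool.not_true, H.pn _ (by omega) (by omega) _ (W_le hv)]

/-- joining the end of an arc with the next strand -/
theorem Q (H : Rel R 0 m) (HD : RelD R m) {l k : ℕ} (h : l + 1 + k ≤ 2 * m) {d : ℕ → Bool}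
    {q : Bool} (hq : d (l + k) = q) {w : V R} (hw : w ∈ W (R := R) m d) :
    D m (l + 1 + k) (N (m + 1) (l + 1) k (B l q w)) = Lg m l k w := by
  induction k generalizing w d with
  | zero => exact HD.zig1 l h d q hq w hw
  | succ k ih =>
    have hB : B l q w ∈ W (R := R) (m + 1) (insD l q d) := B_memW hw (by omega) q
    have hm : N (m + 1) (l + 1) k (B l q w) ∈
        W (R := R) (m + 1) (rotN (l + 1) k (insD l q d)) :=
      H.N_memW (by omega) (by omega) hB
    have c1 : rotN (l + 1) k (insD l q d) (l + 1 + k) = !q := by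
      simp only [rotN, insD]
      split_ifs <;> (first | rfl | omega | contradiction | assumption | (congr 1; omega) | (symm; assumption) | (simp_all; done) | (rename_i h; rw [← h]; congr 1; omega))
    have c2 : rotN (l + 1) k (insD l q d) (l + 1 + k + 2) = q := by
      simp only [rotN, insD]
      rw [if_neg (by omega), if_neg (by omega), if_neg (by omega), if_neg (by omega),
        if_neg (by omega), if_neg (by omega), ← hq]
      congr 1
      omega
    have e := slideD H HD true (i := l + 1 + k) h (by rw [c1, c2, Bool.not_not]) hm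
    rw [Bool.not_true] at e
    have hx : X m true (l + k) w ∈ W (R := R) m (swpD (l + k) d) :=
      H.hX0 _ _ (by omega) _ _ hw
    rw [N_succ, ← Nat.add_assoc, ← e, H.NX_right true (by omega) (by omega) (by omega)
      (W_le hB), show l + 1 + k + 1 = l + k + 2 by omega,
      H.xb true l (l + k) (by omega) (by omega) q w (W_le hw),
      ih (by omega) (by rw [swp_l]; exact hq) hx, Lg_succ]

end

end

end Pool.Agent.Helper454.Wh.Homf
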