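import Pool.Agent.Helper454.Wh.Homf.E5

/-!
# Existence of the HOMFLY polynomial, part 6: the induction step, positions `≥ 1`, continued
-/

set_option autoImplicit false

namespace Pool.Agent.Helper454.Wh.Homf

open Pool.Agent.Helper454.Wh (insD delD swpD noD)
open Par

noncomputable section

set_option linter.unusedSectionVars false
set_option linter.unusedVariables false

section
variable {R : Type} [CommRing R] [Par R] {m : ℕ}

theorem new_hD (H : Rel R 0 m) (HD : RelD R m) (j : ℕ) (hj : j ≤ 2 * (m + 1)) (D' : ℕ → Bool)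
    (hD : D' (j + 1) = !D' j) :
    ∀ v ∈ W (R := R) (m + 1 + 1) D', D (m + 1) j v ∈ W (R := R) (m + 1) (delD j D') := by
  refine W_map _ _ ?_
  rintro e he b d rfl w hw
  cases j with
  | zero =>
    cases e with
    | zero =>
      rw [D0_zero, del_zero]
      exact Submodule.smul_mem _ _ hw
    | succ e =>
      have hd : d 0 = !b := by
        rw [pre_0, pre_lt (by omega)] at hD
        exact hD
      rw [D0_succ (by omega), del_succ hd]
      exact Submodule.smul_mem _ _ (H.N_memW (by omega) (by omega) hw)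
  | succ j =>
    rcases cases4 j e with h | rfl | rfl | ⟨j, rfl, h⟩
    · obtain ⟨e, rfl⟩ : ∃ e', e = e' + 2 := ⟨e - 2, by omega⟩
      have hd : d (j + 1) = !d j := by
        rw [pre_lt (by omega), pre_lt (by omega)] at hD
        exact hD
      rw [D_le _ (by omega), del_le (by omega)]
      exact P_memW (HD.hD _ (by omega) _ hd _ hw) (by omega) b
    · have hd : d j = b := by
        rw [pre_e, pre_lt (by omega)] at hD
        exact (Bool.not_inj hD).symm
      rw [D_end (by omega), del_end hd]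
      exact Submodule.smul_mem _ _ (H.L_memW (by omega) hw)
    · have hd : d j = b := by
        rw [pre_e, pre_ge (le_refl j), Bool.not_not] at hD
        exact hD
      rw [D_next (by omega), del_next hd]
      exact H.L_memW (by omega) hw
    · have hd : d (j + 1) = !d j := by
        rw [show j + 1 + 1 + 1 = (j + 1) + 2 by omega, show j + 1 + 1 = j + 2 by omega,
          pre_ge (by omega), pre_ge h] at hD
        exact hD
      rw [D_ge _ h, show j + 1 + 1 = j + 2 by omega, del_ge h]
      exact P_memW (HD.hD _ (by omega) _ hd _ hw) (by omega) b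

theorem new_zig1 (H : Rel R 0 m) (HD : RelD R m) (i : ℕ) (hi : i + 1 ≤ 2 * (m + 1))
    (D' : ℕ → Bool) (q : Bool) (hq : D' i = q) :
    ∀ v ∈ W (R := R) (m + 1) D', D (m + 1) (i + 1) (B i q v) = v := by
  cases i with
  | zero =>
    intro v hv
    rw [B_zero, D_next (by omega)]
    rfl
  | succ i =>
    refine W_ext ((D (m + 1) (i + 1 + 1)).comp (B (i + 1) q)) (LinearMap.id : V R →ₗ[R] V R) ?_
    rintro c hc b d rfl u hu
    show D (m + 1) (i + 1 + 1) (B (i + 1) q (P c b u)) = P c b u
    rcases Nat.lt_trichotomy i c with h | rfl | h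
    · rw [B_le h.le, D_le _ (by omega : i + 1 ≤ c), HD.zig1 i (by omega) d q ?_ u hu]
      rw [pre_lt (by omega)] at hq
      exact hq
    · rw [pre_e] at hq
      rw [B_le (le_refl i), D_end (e := i + 1) (by omega), H.L_B (by omega) q (W_le hu), a_ai,
        ← hq, Bool.not_not]
    · obtain ⟨i, rfl⟩ : ∃ i', i = i' + 1 := ⟨i - 1, by omega⟩
      rw [B_ge (by omega : c ≤ i), D_ge _ (by omega : c ≤ i + 1), HD.zig1 i (by omega) d q ?_ u hu]
      rw [show i + 1 + 1 = i + 2 by omega, pre_ge (by omega)] at hq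
      exact hq

theorem new_zig2 (H : Rel R 0 m) (HD : RelD R m) (i : ℕ) (hi : i + 1 ≤ 2 * (m + 1))
    (D' : ℕ → Bool) (q : Bool) (hq : D' i = !q) :
    ∀ v ∈ W (R := R) (m + 1) D', D (m + 1) i (B (i + 1) q v) = v := by
  refine W_ext ((D (m + 1) i).comp (B (i + 1) q)) (LinearMap.id : V R →ₗ[R] V R) ?_
  rintro c hc b d rfl u hu
  show D (m + 1) i (B (i + 1) q (P c b u)) = P c b u
  cases i with
  | zero =>
    rw [pre_0] at hq
    rw [B_le (Nat.zero_le c), B_zero, D0_succ (by omega), N_head, Xn0_zero, map_smul, N_P,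
      Nat.zero_add, ai_a, hq]
  | succ i =>
    rcases Nat.lt_trichotomy i c with h | rfl | h
    · rw [B_le (by omega : i + 1 ≤ c), D_le _ (by omega : i ≤ c), HD.zig2 i (by omega) d q ?_ u hu]
      rw [pre_lt (by omega)] at hq
      exact hq
    · rw [pre_e] at hq
      rw [B_ge (le_refl i), D_next (by omega), H.LB0 (by omega) q (W_le hu), Bool.not_inj hq]
    · obtain ⟨i, rfl⟩ : ∃ i', i = i' + 1 := ⟨i - 1, by omega⟩
      rw [B_ge (by omega : c ≤ i + 1), D_ge _ (by omega : c ≤ i), HD.zig2 i (by omega) d q ?_ u hu]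
      rw [show i + 1 + 1 = i + 2 by omega, pre_ge (by omega)] at hq
      exact hq

theorem new_xx0 (H : Rel R 0 m) (i j : ℕ) (hij : i + 2 ≤ j) (hj : j + 1 ≤ 2 * (m + 1)) :
    ∀ v ∈ Val (R := R) (m + 1 + 1),
      X (m + 1 + 1) false (i + 1) (X (m + 1 + 1) false (j + 1) v) =
        X (m + 1 + 1) false (j + 1) (X (m + 1 + 1) false (i + 1) v) := by
  refine Val_ext ((X (m + 1 + 1) false (i + 1)).comp (X (m + 1 + 1) false (j + 1)))
    ((X (m + 1 + 1) false (j + 1)).comp (X (m + 1 + 1) false (i + 1))) ?_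
  intro e he b d w hw
  have hw' := W_le hw
  show X (m + 1 + 1) false (i + 1) (X (m + 1 + 1) false (j + 1) (P e b w)) =
    X (m + 1 + 1) false (j + 1) (X (m + 1 + 1) false (i + 1) (P e b w))
  rcases cases4 i e with h | rfl | rfl | ⟨i, rfl, h⟩
  · rw [X_lt _ _ h]
    rcases cases4 j e with h' | rfl | rfl | ⟨j, rfl, h'⟩
    · rw [X_lt _ _ h', X_lt _ _ h', X_lt _ _ h, H.xx _ _ _ _ (by omega) hij (by omega) w hw']
    · have hL := H.L_mem (k := j) (by omega) hw'
      have e1 := H.LX_slide false (s := 0) (k := j) (j := i) (le_refl 0) (by omega) (by omega)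
        (by omega) hw'
      rw [← Lg_eq] at e1
      have hx : X (m + 1) false i w ∈ W (R := R) (m + 1) (swpD i d) :=
        H.hX _ _ (by omega) (by omega) _ _ hw
      have hxd : swpD i d j = d j := swp_gt (by omega) d
      rcases two (d j) b with hd | hd
      · rw [Xn_end_anti hw hd, Xn_end_anti hx (hxd.trans hd), map_add, map_smul, map_smul,
          X_lt _ _ (by omega : i + 1 < j), new_bx H false (j + 1) i (by omega) (by omega) (!b) _ hL,
          e1]
      · rw [Xn_end_par hw hd, Xn_end_par hx (hxd.trans hd), map_sub, map_smul,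
          X_lt _ _ (by omega : i + 1 < j), X_lt _ _ h]
    · rw [Xn_next, Xn_next, X_lt _ _ (by omega : i + 1 < j + 1)]
    · rw [X_ge _ _ h', X_ge _ _ h', X_lt _ _ h, H.xx _ _ _ _ (by omega) (by omega) (by omega) w hw']
  · obtain ⟨j, rfl⟩ : ∃ j', j = j' + 1 := ⟨j - 1, by omega⟩
    have hL := H.L_mem (k := i) (by omega) hw'
    have e1 := H.LX_far false (s := 0) (k := i) (j := j) (le_refl 0) (by omega) (by omega) hw'
    rw [← Lg_eq] at e1
    have hx : X (m + 1) false j w ∈ W (R := R) (m + 1) (swpD j d) :=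
      H.hX _ _ (by omega) (by omega) _ _ hw
    have hxd : swpD j d i = d i := swp_lt (by omega) d
    rw [X_ge _ _ (by omega : i + 1 ≤ j)]
    rcases two (d i) b with hd | hd
    · rw [Xn_end_anti hw hd, Xn_end_anti hx (hxd.trans hd), map_add, map_smul, map_smul,
        X_ge _ _ (by omega : i ≤ j), new_xb H false (i + 1) j (by omega) (by omega) (!b) _ hL, e1]
    · rw [Xn_end_par hw hd, Xn_end_par hx (hxd.trans hd), map_sub, map_smul,
        X_ge _ _ (by omega : i ≤ j), X_ge _ _ (by omega : i + 1 ≤ j)]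
  · obtain ⟨j, rfl⟩ : ∃ j', j = j' + 1 := ⟨j - 1, by omega⟩
    rw [Xn_next, X_ge _ _ (by omega : i ≤ j), X_ge _ _ (by omega : i + 1 ≤ j), Xn_next]
  · obtain ⟨j, rfl⟩ : ∃ j', j = j' + 1 := ⟨j - 1, by omega⟩
    rw [X_ge _ _ h, X_ge _ _ (by omega : e ≤ j), X_ge _ _ h, X_ge _ _ (by omega : e ≤ j),
      H.xx _ _ _ _ (by omega) (by omega) (by omega) w hw']

/-- far commutation from the case of two negative crossings -/
theorem xx_of {S : Set (V R)} {A A' C C' : V R →ₗ[R] V R}
    (hA' : ∀ v ∈ S, A' v ∈ S) (hC' : ∀ v ∈ S, C' v ∈ S) (hA : ∀ v ∈ S, A v ∈ S)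
    (hC : ∀ v ∈ S, C v ∈ S)
    (a2 : ∀ v ∈ S, A' (A v) = v) (a1 : ∀ v ∈ S, A (A' v) = v)
    (c2 : ∀ v ∈ S, C' (C v) = v) (c1 : ∀ v ∈ S, C (C' v) = v)
    (h : ∀ v ∈ S, A (C v) = C (A v)) (v : V R) (hv : v ∈ S) :
    A' (C v) = C (A' v) ∧ A (C' v) = C' (A v) ∧ A' (C' v) = C' (A' v) := by
  have k1 : ∀ v ∈ S, A' (C v) = C (A' v) := fun v hv => commInv (A := A) (A' := A') hA' hC a2 a1 h v hv
  refine ⟨k1 v hv, ?_, ?_⟩
  · exact (commInv (A := C) (A' := C') (C := A) hC' hA c2 c1 (fun v hv => (h v hv).symm) v hv).symm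
  · exact (commInv (A := C) (A' := C') (C := A') hC' hA' c2 c1
      (fun v hv => (k1 v hv).symm) v hv).symm

theorem new_mem (H : Rel R 0 m) (s : Bool) (j : ℕ) (hj : j + 1 ≤ 2 * (m + 1)) :
    ∀ v ∈ Val (R := R) (m + 1 + 1), X (m + 1 + 1) s (j + 1) v ∈ Val (R := R) (m + 1 + 1) :=
  Val_of_W_mem _ _ fun d _ hw => W_le (new_hX H s j hj d _ hw)

theorem new_xx (H : Rel R 0 m) (b c : Bool) (i j : ℕ) (hij : i + 2 ≤ j)
    (hj : j + 1 ≤ 2 * (m + 1)) :
    ∀ v ∈ Val (R := R) (m + 1 + 1),
      X (m + 1 + 1) b (i + 1) (X (m + 1 + 1) c (j + 1) v) =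
        X (m + 1 + 1) c (j + 1) (X (m + 1 + 1) b (i + 1) v) := by
  intro v hv
  have k := xx_of (S := (Val (R := R) (m + 1 + 1) : Set (V R)))
    (new_mem H true i (by omega)) (new_mem H true j (by omega))
    (new_mem H false i (by omega)) (new_mem H false j (by omega))
    (new_pn H i (by omega)) (new_np H i (by omega)) (new_pn H j (by omega))
    (new_np H j (by omega)) (new_xx0 H i j hij hj) v hv
  cases b
  · cases c
    · exact new_xx0 H i j hij hj v hv
    · exact k.2.1
  · cases c
    · exact k.1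
    · exact k.2.2

theorem Rel.pp_par (H : Rel R 0 m) (HD : RelD R m) {j : ℕ} (hj : j ≤ 2 * m) {d : ℕ → Bool}
    (hd : d (j + 1) = d j) {v : V R} (hv : v ∈ W (R := R) (m + 1) d) :
    X (m + 1) true j (X (m + 1) true j v) = v + (z : R) • X (m + 1) true j v := by
  have e : X (m + 1) true j v = X (m + 1) false j v + (z : R) • v := by
    rw [← HD.skp j hj d hd v hv]; abel
  conv_lhs => rw [e]
  rw [map_add, map_smul, H.pn j (by omega) hj v (W_le hv)]

theorem Rel.pp_anti (H : Rel R 0 m) (HD : RelD R m) {j : ℕ} (hj : j ≤ 2 * m) {d : ℕ → Bool}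
    (hd : d (j + 1) = !d j) {v : V R} (hv : v ∈ W (R := R) (m + 1) d) :
    X (m + 1) true j (X (m + 1) true j v) = v - (z : R) • (ai : R) • B j (d j) (D m j v) := by
  have e : X (m + 1) true j v = X (m + 1) false j v - (z : R) • B j (!d j) (D m j v) := by
    rw [← HD.ska j hj d hd v hv]; abel
  have hc := H.curl true j (by omega) hj (!d j) _ (W_le (HD.hD j hj d hd v hv))
  simp only [cf, if_true, Bool.not_not] at hc
  conv_lhs => rw [e]
  rw [map_sub, map_smul, H.pn j (by omega) hj v (W_le hv), hc]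

theorem new_third (H : Rel R 0 m) (HD : RelD R m) (i : ℕ) (hi : i + 2 ≤ 2 * (m + 1)) :
    ∀ v ∈ Val (R := R) (m + 1 + 1),
      X (m + 1 + 1) true (i + 1) (X (m + 1 + 1) true (i + 2) (X (m + 1 + 1) true (i + 1) v)) =
        X (m + 1 + 1) true (i + 2) (X (m + 1 + 1) true (i + 1) (X (m + 1 + 1) true (i + 2) v)) := by
  refine Val_ext ((X (m + 1 + 1) true (i + 1)).comp ((X (m + 1 + 1) true (i + 2)).comp
    (X (m + 1 + 1) true (i + 1)))) ((X (m + 1 + 1) true (i + 2)).comp
    ((X (m + 1 + 1) true (i + 1)).comp (X (m + 1 + 1) true (i + 2)))) ?_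
  intro e he b d w hw
  have hw' := W_le hw
  show X (m + 1 + 1) true (i + 1) (X (m + 1 + 1) true (i + 2)
      (X (m + 1 + 1) true (i + 1) (P e b w)))
    = X (m + 1 + 1) true (i + 2) (X (m + 1 + 1) true (i + 1)
      (X (m + 1 + 1) true (i + 2) (P e b w)))
  rcases cases4 i e with h | rfl | rfl | ⟨i, rfl, h⟩
  · rcases Nat.lt_or_ge (i + 2) e with h2 | h2
    · have k := H.third i (by omega) (by omega) w hw'
      rw [X_lt _ _ h, X_lt _ _ h2, X_lt _ _ h, k, X_lt _ _ h2, X_lt _ _ h, X_lt _ _ h2]
    · obtain rfl : e = i + 2 := by omega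
      rw [X_lt _ _ h, Xp_end _ (i + 1), Xp_end, Xp_end _ (i + 1), Xp_end, X_ge _ _ (le_refl i)]
  · -- `e = i + 1`
    have hL := H.L_mem (k := i + 1) (by omega) hw'
    have hx : X (m + 1) true i w ∈ W (R := R) (m + 1) (swpD i d) :=
      H.hX _ _ (by omega) (by omega) _ _ hw
    have hxd : swpD i d i = d (i + 1) := swp_l i d
    rw [Xp_end, X_ge _ _ (le_refl i)]
    rcases two (d (i + 1)) b with hd | hd
    · have s1 := new_slide H false i (by omega) b _ hL
      rw [Bool.not_false] at s1
      rw [Xp_next_anti hx (hxd.trans hd), Xp_next_anti (m := m + 1) (e := i + 1) hw hd]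
      simp only [map_sub, map_smul]
      rw [X_lt _ _ (by omega : i + 1 < i + 1 + 1), ← s1, Xp_end _ (i + 1),
        new_pn H (i + 1) (by omega) _ (B_mem hL (by omega) b), L_succ]
    · rw [Xp_next_par hx (hxd.trans hd), Xp_next_par (m := m + 1) (e := i + 1) hw hd]
      simp only [map_add, map_smul]
      rw [X_lt _ _ (by omega : i + 1 < i + 1 + 1), Xp_end _ i, Xp_end _ (i + 1),
        X_ge _ _ (le_refl i)]
  · -- `e = i`
    have hL := H.L_mem (k := i) (by omega) hw'
    have hL1 := H.L_mem (k := i + 1) (by omega) hw'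
    have hLW1 := H.L_memW (k := i + 1) (by omega) hw
    have hx : X (m + 1) true i w ∈ W (R := R) (m + 1) (swpD i d) :=
      H.hX _ _ (by omega) (by omega) _ _ hw
    have hxd : swpD i d i = d (i + 1) := swp_l i d
    have hxe : swpD i d (i + 1) = d i := swp_r i d
    have hy : B (i + 1) b (L (m + 1) (i + 1) w) ∈
        W (R := R) (m + 1 + 1) (insD (i + 1) b (rotL 0 (i + 1) d)) := B_memW hLW1 (by omega) b
    have hy2 : insD (i + 1) b (rotL 0 (i + 1) d) (i + 2) = !b := ins_r (i + 1) b _
    have hy3 : insD (i + 1) b (rotL 0 (i + 1) d) (i + 2 + 1) = d i := by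
      rw [show i + 2 + 1 = (i + 1) + 2 by omega, ins_ge (by omega), rotL_mid (by omega) (by omega)]
    have s1 := new_slide H false i (by omega) b _ hL1
    have s2 := new_slide H true i (by omega) b _ hL
    rw [Bool.not_false] at s1
    rw [Bool.not_true] at s2
    have s3 := new_pn H i (by omega) _ (B_mem hL (by omega : i + 2 ≤ 2 * (m + 1)) b)
    have s4 := new_np H i (by omega) _ (B_mem hL (by omega : i + 2 ≤ 2 * (m + 1)) b)
    have eL : L (m + 1) i (X (m + 1) true i w) = L (m + 1) (i + 1) w := (L_succ _ _ _).symm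
    have a1 : X (m + 1 + 1) true (i + 1) (P (i + 2) b w) = P (i + 2) b (X (m + 1) true i w) :=
      X_lt _ _ (by omega) _ _
    have a2 : X (m + 1 + 1) true (i + 2) (P i b w) = P i b (X (m + 1) true i w) :=
      X_ge _ _ (le_refl i) _ _
    have a3 : X (m + 1 + 1) true (i + 2) (P i b (X (m + 1) true i w)) =
        P i b (X (m + 1) true i (X (m + 1) true i w)) := X_ge _ _ (le_refl i) _ _
    have a4 : X (m + 1 + 1) true (i + 1) (P (i + 1) b w) = P i b w := Xp_end _ _ _ _
    rcases two (d i) b with hp | hp <;> rcases two (d (i + 1)) b with hq | hq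
    · -- `d i = b`, `d (i + 1) = b`
      have k1 : X (m + 1 + 1) true (i + 1) (P i b w) =
          P (i + 1) b w - (z : R) • B (i + 1) b (L (m + 1) i w) := Xp_next_anti hw hp
      have k2 : X (m + 1 + 1) true (i + 2) (P (i + 1) b w) =
          P (i + 2) b w - (z : R) • B (i + 2) b (L (m + 1) (i + 1) w) := Xp_next_anti hw hq
      have k3 : X (m + 1 + 1) true (i + 1) (P i b (X (m + 1) true i w)) =
          P (i + 1) b (X (m + 1) true i w) - (z : R) • B (i + 1) b (L (m + 1) (i + 1) w) := by
        rw [Xp_next_anti hx (hxd.trans hq), eL]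
      have k4 : X (m + 1 + 1) true (i + 2) (P (i + 1) b (X (m + 1) true i w)) =
          P (i + 2) b (X (m + 1) true i w) -
            (z : R) • B (i + 2) b (L (m + 1) (i + 1) (X (m + 1) true i w)) :=
        Xp_next_anti hx (hxe.trans hp)
      have e1 := H.pp_par HD (j := i) (by omega) (by rw [hp, hq]) hw
      have l1 : L (m + 1) (i + 1) (X (m + 1) true i w) = L (m + 1) i w +
          (z : R) • L (m + 1) (i + 1) w := by
        rw [L_succ, e1, map_add, map_smul, eL]
      have e2 := new_ska H HD (i + 2) (by omega) _ (by rw [hy2, hy3, Bool.not_not, hp]) _ hy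
      rw [hy2, Bool.not_not,
        new_zig1 H HD (i + 1) (by omega) _ b (by rw [rotL_mid (by omega) (by omega), hp]) _ hLW1]
        at e2
      have e3 : X (m + 1 + 1) false (i + 2) (B (i + 1) b (L (m + 1) (i + 1) w)) =
          X (m + 1 + 1) true (i + 2) (B (i + 1) b (L (m + 1) (i + 1) w)) +
          (z : R) • B (i + 2) b (L (m + 1) (i + 1) w) := by
        rw [← e2]; abel
      have hl : X (m + 1 + 1) true (i + 1) (X (m + 1 + 1) true (i + 2)
          (X (m + 1 + 1) true (i + 1) (P i b w))) =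
          P (i + 2) b (X (m + 1) true i w) -
            (z : R) • X (m + 1 + 1) false (i + 2) (B (i + 1) b (L (m + 1) (i + 1) w)) -
            (z : R) • B (i + 2) b (L (m + 1) i w) := by
        rw [k1, map_sub, map_smul, k2, s2]
        simp only [map_sub, map_smul]
        rw [a1, s3, ← s1]
      have hr : X (m + 1 + 1) true (i + 2) (X (m + 1 + 1) true (i + 1)
          (X (m + 1 + 1) true (i + 2) (P i b w))) =
          P (i + 2) b (X (m + 1) true i w) -
            (z : R) • B (i + 2) b (L (m + 1) i w + (z : R) • L (m + 1) (i + 1) w) -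
            (z : R) • X (m + 1 + 1) true (i + 2) (B (i + 1) b (L (m + 1) (i + 1) w)) := by
        rw [a2, k3, map_sub, map_smul, k4, l1]
      rw [hl, hr, e3]
      simp only [map_add, map_smul]
      module
    · -- `d i = b`, `d (i + 1) = !b`
      have k1 : X (m + 1 + 1) true (i + 1) (P i b w) =
          P (i + 1) b w - (z : R) • B (i + 1) b (L (m + 1) i w) := Xp_next_anti hw hp
      have k2 : X (m + 1 + 1) true (i + 2) (P (i + 1) b w) =
          P (i + 2) b w + (z : R) • P (i + 1) b w := Xp_next_par hw hq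
      have k3 : X (m + 1 + 1) true (i + 1) (P i b (X (m + 1) true i w)) =
          P (i + 1) b (X (m + 1) true i w) + (z : R) • P i b (X (m + 1) true i w) :=
        Xp_next_par hx (hxd.trans hq)
      have k4 : X (m + 1 + 1) true (i + 2) (P (i + 1) b (X (m + 1) true i w)) =
          P (i + 2) b (X (m + 1) true i w) -
            (z : R) • B (i + 2) b (L (m + 1) (i + 1) (X (m + 1) true i w)) :=
        Xp_next_anti hx (hxe.trans hp)
      have hda : d (i + 1) = !d i := by rw [hp, hq]
      have e1 := H.pp_anti HD (j := i) (by omega) hda hw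
      have hDw : D m i w ∈ Val (R := R) m := W_le (HD.hD i (by omega) d hda w hw)
      rw [hp] at e1
      have l1 : L (m + 1) (i + 1) (X (m + 1) true i w) = L (m + 1) i w -
          (z : R) • (ai : R) • P i b (D m i w) := by
        rw [L_succ, e1, map_sub, map_smul, map_smul, H.LB0 (by omega) b hDw]
      have hl : X (m + 1 + 1) true (i + 1) (X (m + 1 + 1) true (i + 2)
          (X (m + 1 + 1) true (i + 1) (P i b w))) =
          P (i + 2) b (X (m + 1) true i w) + (z : R) • P i b w -
            (z : R) • B (i + 2) b (L (m + 1) i w) := by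
        rw [k1, map_sub, map_smul, k2, s2]
        simp only [map_sub, map_add, map_smul]
        rw [a1, a4, s3]
      have hr : X (m + 1 + 1) true (i + 2) (X (m + 1 + 1) true (i + 1)
          (X (m + 1 + 1) true (i + 2) (P i b w))) =
          P (i + 2) b (X (m + 1) true i w) -
            (z : R) • B (i + 2) b (L (m + 1) i w - (z : R) • (ai : R) • P i b (D m i w)) +
            (z : R) • P i b (w - (z : R) • (ai : R) • B i b (D m i w)) := by
        rw [a2, k3, map_add, map_smul, k4, a3, l1, e1]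
      rw [hl, hr]
      simp only [map_sub, map_smul]
      rw [B_ge (le_refl i)]
      module
    · -- `d i = !b`, `d (i + 1) = b`
      have k1 : X (m + 1 + 1) true (i + 1) (P i b w) =
          P (i + 1) b w + (z : R) • P i b w := Xp_next_par hw hp
      have k2 : X (m + 1 + 1) true (i + 2) (P (i + 1) b w) =
          P (i + 2) b w - (z : R) • B (i + 2) b (L (m + 1) (i + 1) w) := Xp_next_anti hw hq
      have k3 : X (m + 1 + 1) true (i + 1) (P i b (X (m + 1) true i w)) =
          P (i + 1) b (X (m + 1) true i w) - (z : R) • B (i + 1) b (L (m + 1) (i + 1) w) := by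
        rw [Xp_next_anti hx (hxd.trans hq), eL]
      have k4 : X (m + 1 + 1) true (i + 2) (P (i + 1) b (X (m + 1) true i w)) =
          P (i + 2) b (X (m + 1) true i w) + (z : R) • P (i + 1) b (X (m + 1) true i w) :=
        Xp_next_par hx (hxe.trans hp)
      have e2 := new_skp H HD (i + 2) (by omega) _ (by rw [hy2, hy3, hp]) _ hy
      have e3 : X (m + 1 + 1) true (i + 2) (B (i + 1) b (L (m + 1) (i + 1) w)) =
          X (m + 1 + 1) false (i + 2) (B (i + 1) b (L (m + 1) (i + 1) w)) +
          (z : R) • B (i + 1) b (L (m + 1) (i + 1) w) := by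
        rw [← e2]; abel
      have hl : X (m + 1 + 1) true (i + 1) (X (m + 1 + 1) true (i + 2)
          (X (m + 1 + 1) true (i + 1) (P i b w))) =
          P (i + 2) b (X (m + 1) true i w) -
            (z : R) • X (m + 1 + 1) false (i + 2) (B (i + 1) b (L (m + 1) (i + 1) w)) +
            (z : R) • (P (i + 1) b (X (m + 1) true i w) -
              (z : R) • B (i + 1) b (L (m + 1) (i + 1) w)) := by
        rw [k1, map_add, map_smul, k2, a2]
        simp only [map_sub, map_add, map_smul]
        rw [a1, ← s1, k3]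
      have hr : X (m + 1 + 1) true (i + 2) (X (m + 1 + 1) true (i + 1)
          (X (m + 1 + 1) true (i + 2) (P i b w))) =
          P (i + 2) b (X (m + 1) true i w) + (z : R) • P (i + 1) b (X (m + 1) true i w) -
            (z : R) • X (m + 1 + 1) true (i + 2) (B (i + 1) b (L (m + 1) (i + 1) w)) := by
        rw [a2, k3, map_sub, map_smul, k4]
      rw [hl, hr, e3]
      module
    · -- `d i = !b`, `d (i + 1) = !b`
      have k1 : X (m + 1 + 1) true (i + 1) (P i b w) =
          P (i + 1) b w + (z : R) • P i b w := Xp_next_par hw hp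
      have k2 : X (m + 1 + 1) true (i + 2) (P (i + 1) b w) =
          P (i + 2) b w + (z : R) • P (i + 1) b w := Xp_next_par hw hq
      have k3 : X (m + 1 + 1) true (i + 1) (P i b (X (m + 1) true i w)) =
          P (i + 1) b (X (m + 1) true i w) + (z : R) • P i b (X (m + 1) true i w) :=
        Xp_next_par hx (hxd.trans hq)
      have k4 : X (m + 1 + 1) true (i + 2) (P (i + 1) b (X (m + 1) true i w)) =
          P (i + 2) b (X (m + 1) true i w) + (z : R) • P (i + 1) b (X (m + 1) true i w) :=
        Xp_next_par hx (hxe.trans hp)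
      have e1 := H.pp_par HD (j := i) (by omega) (by rw [hp, hq]) hw
      have hl : X (m + 1 + 1) true (i + 1) (X (m + 1 + 1) true (i + 2)
          (X (m + 1 + 1) true (i + 1) (P i b w))) =
          P (i + 2) b (X (m + 1) true i w) + (z : R) • P i b w +
            (z : R) • (P (i + 1) b (X (m + 1) true i w) + (z : R) • P i b (X (m + 1) true i w)) := by
        rw [k1, map_add, map_smul, k2, a2]
        simp only [map_add, map_smul]
        rw [a1, a4, k3]
      have hr : X (m + 1 + 1) true (i + 2) (X (m + 1 + 1) true (i + 1)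
          (X (m + 1 + 1) true (i + 2) (P i b w))) =
          P (i + 2) b (X (m + 1) true i w) + (z : R) • P (i + 1) b (X (m + 1) true i w) +
            (z : R) • P i b (w + (z : R) • X (m + 1) true i w) := by
        rw [a2, k3, map_add, map_smul, k4, a3, e1]
      rw [hl, hr]
      simp only [map_add, map_smul]
      module
  · have k := H.third i (by omega) (by omega) w hw'
    rw [X_ge _ _ h, X_ge _ _ (by omega : e ≤ i + 1), X_ge _ _ h, k, X_ge _ _ (by omega : e ≤ i + 1),
      X_ge _ _ h, X_ge _ _ (by omega : e ≤ i + 1)]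

end

end

end Pool.Agent.Helper454.Wh.Homf
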