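import Pool.Agent.Helper454.Wh.Homf.E6

/-!
# Existence of the HOMFLY polynomial, part 7: joining the end of an arc at the new level
-/

set_option autoImplicit false

namespace Pool.Agent.Helper454.Wh.Homf

open Pool.Agent.Helper454.Wh (insD delD swpD noD)
open Par

noncomputable section

set_option linter.unusedSectionVars false
set_option linter.unusedVariables false

section
variable {R : Type} [CommRing R] [Par R] {m : ℕ}

theorem rel1 (H : Rel R 0 m) (HD : RelD R m) : Rel R 1 (m + 1) where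
  hp := le_refl 1
  hX0 s j hj := H.hX s j (by omega) (by omega)
  hX s j hp hj := by
    obtain ⟨j, rfl⟩ : ∃ j', j = j' + 1 := ⟨j - 1, by omega⟩
    exact new_hX H s j hj
  pn j hp hj := by
    obtain ⟨j, rfl⟩ : ∃ j', j = j' + 1 := ⟨j - 1, by omega⟩
    exact new_pn H j hj
  np j hp hj := by
    obtain ⟨j, rfl⟩ : ∃ j', j = j' + 1 := ⟨j - 1, by omega⟩
    exact new_np H j hj
  xx b c i j hp hij hj := by
    obtain ⟨j, rfl⟩ : ∃ j', j = j' + 1 := ⟨j - 1, by omega⟩
    obtain ⟨i, rfl⟩ : ∃ i', i = i' + 1 := ⟨i - 1, by omega⟩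
    exact new_xx H b c i j (by omega) hj
  third i hp hi := by
    obtain ⟨i, rfl⟩ : ∃ i', i = i' + 1 := ⟨i - 1, by omega⟩
    exact new_third H HD i (by omega)
  curl b i _ hi := new_curl H b i hi
  slide b i hp hi := by
    obtain ⟨i, rfl⟩ : ∃ i', i = i' + 1 := ⟨i - 1, by omega⟩
    exact new_slide H b i (by omega)
  xb b i j hij hj := new_xb H b i j hij hj
  bx b i j hp hij hi := by
    obtain ⟨j, rfl⟩ : ∃ j', j = j' + 1 := ⟨j - 1, by omega⟩
    exact new_bx H b i j (by omega) hi

theorem relD1 (H : Rel R 0 m) (HD : RelD R m) : RelD R (m + 1) where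
  hD j hj := new_hD H HD j hj
  skp j hj := new_skp H HD j hj
  ska j hj := new_ska H HD j hj
  zig1 i hi := new_zig1 H HD i hi
  zig2 i hi := new_zig2 H HD i hi

/-! ### `N` and `Lg` on the blocks -/

theorem N_lt {n s k e : ℕ} (h : s + k < e ∨ k = 0) (b : Bool) (v : V R) :
    N (n + 1) (s + 1) k (P e b v) = P e b (N n s k v) := by
  induction k with
  | zero => rfl
  | succ k ih =>
    rw [N_succ, ih (by omega), N_succ, show s + 1 + k = s + k + 1 by omega,
      X_lt _ _ (by omega)]

theorem N_ge {n s k e : ℕ} (h : e ≤ s) (b : Bool) (v : V R) :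
    N (n + 1) (s + 2) k (P e b v) = P e b (N n s k v) := by
  induction k with
  | zero => rfl
  | succ k ih =>
    rw [N_succ, ih, N_succ, show s + 2 + k = s + k + 2 by omega, X_ge _ _ (by omega)]

theorem Lg_lt {n s k e : ℕ} (h : s + k < e ∨ k = 0) (b : Bool) (v : V R) :
    Lg (n + 1) (s + 1) k (P e b v) = P e b (Lg n s k v) := by
  induction k generalizing v with
  | zero => rfl
  | succ k ih =>
    rw [Lg_succ, show s + 1 + k = s + k + 1 by omega, X_lt _ _ (by omega), ih (by omega), Lg_succ]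

theorem Lg_ge {n s k e : ℕ} (h : e ≤ s) (b : Bool) (v : V R) :
    Lg (n + 1) (s + 2) k (P e b v) = P e b (Lg n s k v) := by
  induction k generalizing v with
  | zero => rfl
  | succ k ih =>
    rw [Lg_succ, show s + 2 + k = s + k + 2 by omega, X_ge _ _ (by omega), ih, Lg_succ]

theorem B1_P (q : Bool) (c : ℕ) (b : Bool) (w : V R) :
    B 1 q (P c b w) = P (c + 2) b (P 0 q w) := by
  rw [B_le (Nat.zero_le c), B_zero]

/-- the case `l = 1` of `Q` at the new level -/
theorem Q1 (H : Rel R 0 m) (HD : RelD R m) (f : ℕ) (hf : f ≤ 2 * m) (D' : ℕ → Bool) (q : Bool)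
    (hq : D' (f + 1) = q) :
    ∀ v ∈ W (R := R) (m + 1) D',
      D (m + 1) (f + 2) (N (m + 1 + 1) 2 f (B 1 q v)) = Lg (m + 1) 1 f v := by
  refine W_ext ((D (m + 1) (f + 2)).comp ((N (m + 1 + 1) 2 f).comp (B 1 q)))
    (Lg (m + 1) 1 f) ?_
  rintro c hc b d rfl w hw
  have hw' := W_le hw
  show D (m + 1) (f + 2) (N (m + 1 + 1) 2 f (B 1 q (P c b w))) = Lg (m + 1) 1 f (P c b w)
  rw [B1_P]
  rcases Nat.lt_trichotomy f c with h | rfl | h
  · rw [N_lt (s := 1) (by omega), N_P, Nat.zero_add, D_le _ (by omega : f + 1 ≤ c),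
      D_next (by omega), Lg_lt (s := 0) (by omega), Lg_eq]
  · rw [pre_e] at hq
    rw [N_lt (s := 1) (by omega), N_P, Nat.zero_add, D_end (e := f + 1) (by omega), L_P, a_ai, Lg_P,
      ← hq, Bool.not_not]
  · obtain ⟨r, rfl⟩ : ∃ r, f = c + (r + 1) := ⟨f - c - 1, by omega⟩
    have hd : d (c + r) = q := by
      rw [show c + (r + 1) + 1 = (c + r) + 2 by omega, pre_ge (by omega)] at hq
      exact hq
    have huW : Lg m c r w ∈ W (R := R) m (rotL c r d) := H.Lg_memW0 (by omega) hw
    have hu : Lg m c r w ∈ Val (R := R) m := W_le huW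
    have hud : rotL c r d c = q := by rw [rotL_s, hd]
    have e1 := Q H HD (l := c) (k := r) (by omega) hd hw
    have e2 : L m c (Lg m c r w) = L m (c + r) w := by
      rw [Lg_eq, Lg_eq, Lg_add, Nat.zero_add]
    have e3 : Lg (m + 1) 1 c (B (c + 1) b (L m c (Lg m c r w))) =
        L (m + 1) (c + 2 + r) (P c b w) := by
      rw [← H.LP (by omega) b hu, ← Lg_ge (le_refl c), Lg_eq (m + 1) (c + 2),
        Lg_eq (m + 1) (c + 2 + r), Lg_add (m + 1) 0 (c + 2) r, Nat.zero_add]
    have hv : P c q w ∈ W (R := R) (m + 1) (pre c q d) := P_memW hw (by omega) q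
    have hvd : pre c q d (c + 1) = !q := pre_e c q d
    have d1 : D (m + 1) (c + (r + 1) + 2) (P (c + 1) b (P (c + r) q w)) =
        P (c + 1) b (L m (c + r) w) := by
      rw [D_ge _ (by omega), show c + (r + 1) = c + r + 1 by omega, D_next (by omega)]
    have n0 : N (m + 1 + 1) 2 (c + (r + 1)) (P (c + 2) b (P 0 q w)) =
        N (m + 1 + 1) (c + 1 + 2) r (X (m + 1 + 1) false (c + 1 + 1)
          (P (c + 1 + 1) b (P c q w))) := by
      rw [N_add, N_lt (s := 1) (by omega), N_P, Nat.zero_add, N_head,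
        show 2 + c = c + 1 + 1 by omega]
    have n1 : N (m + 1 + 1) (c + 1 + 2) r (P (c + 1) b (P c q w)) =
        P (c + 1) b (P (c + r) q w) := by
      rw [N_ge (le_refl (c + 1)), N_P]
    rcases two q b with rfl | rfl
    · -- `q = b`
      have n2 : N (m + 1 + 1) (c + 1 + 2) r (P (c + 1 + 1) q (P c q w)) =
          P (c + 2 + r) q (P c q w) := N_P _ _ (c + 2) q _
      have d2 : D (m + 1) (c + (r + 1) + 2) (P (c + 2 + r) q (P c q w)) =
          L (m + 1) (c + 2 + r) (P c q w) := by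
        rw [show c + (r + 1) + 2 = c + 2 + r + 1 by omega, D_next (by omega)]
      have r1 : Lg (m + 1) 1 (c + (r + 1)) (P c q w) =
          P (c + 1) q (L m (c + r) w) - (z : R) • L (m + 1) (c + 2 + r) (P c q w) := by
        rw [show c + (r + 1) = (c + 1) + r by omega, Lg_add, show 1 + (c + 1) = c + 2 by omega,
          Lg_ge (le_refl c), Lg_succ, show 1 + c = c + 1 by omega, Xp_next_anti huW hud]
        simp only [map_sub, map_smul]
        rw [Lg_lt (s := 0) (by omega), e3, ← Lg_eq, e2]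
      rw [n0, Xn_end_par (m := m + 1) (e := c + 1) hv hvd, r1]
      simp only [map_sub, map_smul]
      rw [n1, n2, d1, d2]
    · -- `q = !b`
      have n2 : B (c + 2) (!b) (P 0 (!(!b)) w) = P 0 b (B c (!b) w) := by
        rw [B_ge (Nat.zero_le c), Bool.not_not]
      have n3 : N (m + 1 + 1) (c + 1 + 2) r (P 0 b (B c (!b) w)) =
          P 0 b (N (m + 1) (c + 1) r (B c (!b) w)) := N_ge (Nat.zero_le (c + 1)) b _
      have d3 : D (m + 1) (c + (r + 1) + 2) (P 0 b (N (m + 1) (c + 1) r (B c (!b) w))) =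
          P 0 b (Lg m c r w) := by
        rw [D_ge _ (by omega), show c + (r + 1) = c + 1 + r by omega, e1]
      have r1 : Lg (m + 1) 1 (c + (r + 1)) (P c b w) =
          P (c + 1) b (L m (c + r) w) + (z : R) • P 0 b (Lg m c r w) := by
        rw [show c + (r + 1) = (c + 1) + r by omega, Lg_add, show 1 + (c + 1) = c + 2 by omega,
          Lg_ge (le_refl c), Lg_succ, show 1 + c = c + 1 by omega, Xp_next_par huW hud]
        simp only [map_add, map_smul]
        rw [Lg_lt (s := 0) (by omega), Lg_P, ← Lg_eq, e2]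
      rw [n0, Xn_end_anti (m := m + 1) (e := c + 1) hv (hvd.trans (Bool.not_not b)), L_P, map_smul,
        a_ai, r1]
      simp only [map_add, map_smul]
      rw [n1, show c + 1 + 1 = c + 2 by omega, n2, n3, d1, d3]

end

end

end Pool.Agent.Helper454.Wh.Homf
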