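import Pool.Agent.Helper454.Wh.Homf.E7

/-!
# Existence of the HOMFLY polynomial, part 8: the induction step, position `0`
-/

set_option autoImplicit false

namespace Pool.Agent.Helper454.Wh.Homf

open Pool.Agent.Helper454.Wh (insD delD swpD noD)
open Par

noncomputable section

set_option linter.unusedSectionVars false
set_option linter.unusedVariables false

section
variable {R : Type} [CommRing R] [Par R] {m : ℕ}

/-- the square of a negative crossing -/
theorem Rel.nn_par {p : ℕ} (H : Rel R p m) (HD : RelD R m) {j : ℕ} (hp : p ≤ j) (hj : j ≤ 2 * m)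
    {d : ℕ → Bool} (hd : d (j + 1) = d j) {v : V R} (hv : v ∈ W (R := R) (m + 1) d) :
    X (m + 1) false j (X (m + 1) false j v) = v - (z : R) • X (m + 1) false j v := by
  have e : X (m + 1) false j v = X (m + 1) true j v - (z : R) • v := by
    rw [← HD.skp j hj d hd v hv]; abel
  conv_lhs => rw [e]
  rw [map_sub, map_smul, H.np j hp hj v (W_le hv)]

theorem Rel.nn_anti {p : ℕ} (H : Rel R p m) (HD : RelD R m) {j : ℕ} (hp : p ≤ j)
    (hj : j ≤ 2 * m) {d : ℕ → Bool} (hd : d (j + 1) = !d j) {v : V R}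
    (hv : v ∈ W (R := R) (m + 1) d) :
    X (m + 1) false j (X (m + 1) false j v) = v + (z : R) • (a : R) • B j (d j) (D m j v) := by
  have e : X (m + 1) false j v = X (m + 1) true j v + (z : R) • B j (!d j) (D m j v) := by
    rw [← HD.ska j hj d hd v hv]; abel
  have hc := H.curl false j hp hj (!d j) _ (W_le (HD.hD j hj d hd v hv))
  simp only [cf, Bool.false_eq_true, if_false, Bool.not_not] at hc
  conv_lhs => rw [e]
  rw [map_add, map_smul, H.np j hp hj v (W_le hv), hc]

theorem zero_bx (H : Rel R 0 m) (HD : RelD R m) (i : ℕ) (hi : i + 2 ≤ 2 * (m + 1)) (q : Bool) :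
    ∀ v ∈ Val (R := R) (m + 1),
      X (m + 1 + 1) false 0 (B (i + 2) q v) = B (i + 2) q (X (m + 1) false 0 v) := by
  have H1 := rel1 H HD
  refine Val_ext ((X (m + 1 + 1) false 0).comp (B (i + 2) q))
    ((B (i + 2) q).comp (X (m + 1) false 0)) ?_
  intro c hc b d u hu
  have hu := W_le hu
  show X (m + 1 + 1) false 0 (B (i + 2) q (P c b u)) = B (i + 2) q (X (m + 1) false 0 (P c b u))
  cases c with
  | zero =>
    rw [B_ge (Nat.zero_le i), Xn0_zero, Xn0_zero, map_smul, B_ge (Nat.zero_le i)]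
  | succ c =>
    have h1 : B 1 b u ∈ Val (R := R) (m + 1) := B_mem hu (by omega) b
    rw [Xn0_succ m c]
    by_cases h : c + 1 ≤ i
    · rw [B_ge h, Xn0_succ, ← H1.NB_right (s := 2) (k := c) (l := i + 2) (by omega) (by omega)
        (by omega) q h1, bb (by omega : 1 ≤ i) (by omega) _ _ hu]
    · rw [B_le (by omega : i + 1 ≤ c + 1), Xn0_succ (m + 1) (c + 2),
        ← H1.NB_mid (s := 2) (k := c) (l := i + 2) (by omega) (by omega) (by omega) (by omega) q h1]
      have := bb (by omega : 1 ≤ i + 1) (by omega) b q hu (R := R)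
      rw [← this]

theorem zero_aux_par (c : ℕ) (b : Bool) {u : V R} (hu : u ∈ Val (R := R) m) :
    N (m + 1 + 1) 2 (c + 1) (B 1 b (P 0 b u)) =
      P 1 b (P c b u) - (z : R) • P (c + 2) b (P 0 b u) := by
  have h : ∀ u ∈ Val (R := R) m, X (R := R) (m + 1 + 1) false 2 (P 2 b (P 0 b u)) =
      P 1 b (P 0 b u) - (z : R) • P 2 b (P 0 b u) := by
    refine Val_of_W ((X (m + 1 + 1) false 2).comp ((P 2 b).comp (P 0 b)))
      ((P 1 b).comp (P 0 b) - (z : R) • (P 2 b : V R →ₗ[R] V R).comp (P 0 b)) ?_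
    intro d u hu
    have hv : P 0 b u ∈ W (R := R) (m + 1) (pre 0 b d) := P_memW hu (by omega) b
    exact Xn_end_par (m := m + 1) (e := 1) hv (pre_e 0 b d)
  have e4 : B 1 b (P 0 b u) = P 2 b (P 0 b u) := B1_P b 0 b u
  have e5 : N (m + 1 + 1) 3 c (P 1 b (P 0 b u)) = P 1 b (P c b u) := by
    rw [N_ge (le_refl 1), N_P m c 0, Nat.zero_add]
  have e6 : N (m + 1 + 1) 3 c (P 2 b (P 0 b u)) = P (c + 2) b (P 0 b u) := by
    rw [N_P (m + 1) c 2, Nat.add_comm]
  rw [e4, N_head, h u hu]
  simp only [map_sub, map_smul]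
  rw [e5, e6]

theorem zero_aux_anti (c : ℕ) (b : Bool) {u : V R} (hu : u ∈ Val (R := R) m) :
    N (m + 1 + 1) 2 (c + 1) (B 1 b (P 0 (!b) u)) =
      P 1 (!b) (P c b u) + (z : R) • P 0 (!b) (P c b u) := by
  have h : ∀ u ∈ Val (R := R) m, X (R := R) (m + 1 + 1) false 2 (P 2 (!b) (P 0 b u)) =
      P 1 (!b) (P 0 b u) + (z : R) • P 0 (!b) (P 0 b u) := by
    refine Val_of_W ((X (m + 1 + 1) false 2).comp ((P 2 (!b)).comp (P 0 b)))
      ((P 1 (!b)).comp (P 0 b) + (z : R) • (P 0 (!b) : V R →ₗ[R] V R).comp (P 0 b)) ?_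
    intro d u hu
    have hv : P 0 b u ∈ W (R := R) (m + 1) (pre 0 b d) := P_memW hu (by omega) b
    have e1 : X (m + 1 + 1) false 2 (P 2 (!b) (P 0 b u)) =
      P 1 (!b) (P 0 b u) + (z : R) • (a : R) • B 2 (!(!b)) (L (m + 1) 1 (P 0 b u)) :=
      Xn_end_anti (m := m + 1) (e := 1) hv (pre_e 0 b d)
    have e2 : L (m + 1) 1 (P 0 b u) = (ai : R) • P 0 (!b) u := L_P m 0 b u
    have e3 : B 2 (!(!b)) (P 0 (!b) u) = P 0 (!b) (P 0 b u) := by
      rw [B_ge (le_refl 0), B_zero, Bool.not_not]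
    rw [e2, map_smul, a_ai, e3] at e1
    exact e1
  have e4 : B 1 b (P 0 (!b) u) = P 2 (!b) (P 0 b u) := B1_P b 0 (!b) u
  have e5 : N (m + 1 + 1) 3 c (P 1 (!b) (P 0 b u)) = P 1 (!b) (P c b u) := by
    rw [N_ge (le_refl 1), N_P m c 0, Nat.zero_add]
  have e7 : N (m + 1 + 1) 3 c (P 0 (!b) (P 0 b u)) = P 0 (!b) (P c b u) := by
    rw [N_ge (Nat.zero_le 1), N_P m c 0, Nat.zero_add]
  rw [e4, N_head, h u hu]
  simp only [map_add, map_smul]
  rw [e5, e7]

theorem zero_slide1 (m : ℕ) (q : Bool) : ∀ v ∈ Val (R := R) (m + 1),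
    X (m + 1 + 1) true 1 (B 0 q v) = X (m + 1 + 1) false 0 (B 1 q v) := by
  refine Val_ext ((X (m + 1 + 1) true 1).comp (B 0 q))
    ((X (m + 1 + 1) false 0).comp (B 1 q)) ?_
  intro c hc b d u hu
  have hu' := W_le hu
  show X (m + 1 + 1) true 1 (B 0 q (P c b u)) = X (m + 1 + 1) false 0 (B 1 q (P c b u))
  have hv : P c b u ∈ W (R := R) (m + 1) (pre c b d) := P_memW hu hc b
  rcases two q b with rfl | rfl
  · have e : X (m + 1 + 1) true 1 (P 0 q (P c q u)) =
        P 1 q (P c q u) - (z : R) • B 1 q (L (m + 1) 0 (P c q u)) :=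
      Xp_next_anti (m := m + 1) (e := 0) hv (pre_0 c q d)
    rw [L_zero] at e
    rw [B_zero, e, B1_P, Xn0_succ (m + 1) (c + 1), zero_aux_par c q hu']
  · have e : X (m + 1 + 1) true 1 (P 0 (!b) (P c b u)) =
        P 1 (!b) (P c b u) + (z : R) • P 0 (!b) (P c b u) :=
      Xp_next_par (m := m + 1) (e := 0) hv ((pre_0 c b d).trans (Bool.not_not b).symm)
    rw [B_zero, e, B1_P, Xn0_succ (m + 1) (c + 1), zero_aux_anti c b hu']

theorem zero_slide2 (m : ℕ) (q : Bool) : ∀ v ∈ Val (R := R) (m + 1),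
    X (m + 1 + 1) false 1 (B 0 q v) = X (m + 1 + 1) true 0 (B 1 q v) := by
  refine Val_ext ((X (m + 1 + 1) false 1).comp (B 0 q))
    ((X (m + 1 + 1) true 0).comp (B 1 q)) ?_
  intro c hc b d u hu
  have hu' := W_le hu
  show X (m + 1 + 1) false 1 (B 0 q (P c b u)) = X (m + 1 + 1) true 0 (B 1 q (P c b u))
  have e : X (m + 1 + 1) false 1 (P 0 q (P c b u)) = P 1 q (P c b u) :=
    Xn_next (m + 1) 0 q (P c b u)
  have hv : P 0 q u ∈ W (R := R) (m + 1) (pre 0 q d) := P_memW hu (by omega) q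
  rw [B_zero, e, B1_P]
  rcases two q b with rfl | rfl
  · have e2 : X (m + 1 + 1) true 0 (P (c + 2) q (P 0 q u)) =
        N (m + 1 + 1) 2 (c + 1) (B 1 q (P 0 q u)) + (z : R) • P (c + 2) q (P 0 q u) :=
      Xp0_par (m := m + 1) (e := c + 1) hv (pre_0 0 q d)
    rw [e2, zero_aux_par c q hu']
    abel
  · have e2 : X (m + 1 + 1) true 0 (P (c + 2) b (P 0 (!b) u)) =
        N (m + 1 + 1) 2 (c + 1) (B 1 b (P 0 (!b) u)) -
          (z : R) • (ai : R) • P 0 (!b) (N (m + 1) 0 (c + 1) (P 0 (!b) u)) :=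
      Xp0_anti (m := m + 1) (e := c + 1) hv (pre_0 0 (!b) d)
    have e3 : N (m + 1) 0 (c + 1) (P 0 (!b) u) = (a : R) • P c b u := by
      rw [N_head, Xn0_zero, map_smul, N_P m c 0, Nat.zero_add, Bool.not_not]
    rw [e2, zero_aux_anti c b hu', e3, map_smul, ai_a]
    abel

theorem zero_hX (H : Rel R 0 m) (HD : RelD R m) (s : Bool) (D' : ℕ → Bool) :
    ∀ v ∈ W (R := R) (m + 1 + 1) D', X (m + 1 + 1) s 0 v ∈ W (R := R) (m + 1 + 1) (swpD 0 D') := by
  have H1 := rel1 H HD
  refine W_map _ _ ?_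
  rintro e he b d rfl w hw
  cases e with
  | zero =>
    rw [swp_zero]
    cases s
    · rw [Xn0_zero]; exact Submodule.smul_mem _ _ (P_memW hw (by omega) _)
    · rw [Xp0_zero]; exact Submodule.smul_mem _ _ (P_memW hw (by omega) _)
  | succ e =>
    have h1 : N (m + 1 + 1) 2 e (B 1 b w) ∈
        W (R := R) (m + 1 + 1) (swpD 0 (pre (e + 1) b d)) := by
      rw [← rot_ins]
      exact H1.N_memW (by omega) (by omega) (B_memW hw (by omega) b)
    cases s
    · rw [Xn0_succ]; exact h1
    · rcases two (d 0) b with hd | hd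
      · rw [Xp0_par hw hd]
        have h2 := P_memW hw he b
        rw [par_zero hd] at h2
        exact add_mem h1 (Submodule.smul_mem _ _ h2)
      · rw [Xp0_anti hw hd]
        have h2 := P_memW (H.N_memW (s := 0) (k := e) (by omega) (by omega) hw)
          (by omega : 0 ≤ 2 * (m + 1)) (!b)
        rw [rot_zero hd] at h2
        exact sub_mem h1 (Submodule.smul_mem _ _ (Submodule.smul_mem _ _ h2))

theorem zero_mem (H : Rel R 0 m) (HD : RelD R m) (b : Bool) :
    ∀ v ∈ Val (R := R) (m + 1 + 1), X (m + 1 + 1) b 0 v ∈ Val (R := R) (m + 1 + 1) :=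
  Val_of_W_mem _ _ fun d _ hw => W_le (zero_hX H HD b d _ hw)

theorem zero_xx0 (H : Rel R 0 m) (HD : RelD R m) (j : ℕ) (hj : j + 2 ≤ 2 * (m + 1)) :
    ∀ v ∈ Val (R := R) (m + 1 + 1),
      X (m + 1 + 1) false 0 (X (m + 1 + 1) false (j + 2) v) =
        X (m + 1 + 1) false (j + 2) (X (m + 1 + 1) false 0 v) := by
  have H1 := rel1 H HD
  have HD1 := relD1 H HD
  refine Val_ext ((X (m + 1 + 1) false 0).comp (X (m + 1 + 1) false (j + 2)))
    ((X (m + 1 + 1) false (j + 2)).comp (X (m + 1 + 1) false 0)) ?_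
  intro e he b d w hw
  have hw' := W_le hw
  show X (m + 1 + 1) false 0 (X (m + 1 + 1) false (j + 2) (P e b w)) =
    X (m + 1 + 1) false (j + 2) (X (m + 1 + 1) false 0 (P e b w))
  cases e with
  | zero =>
    rw [X_ge _ _ (Nat.zero_le j), Xn0_zero, Xn0_zero, map_smul, X_ge _ _ (Nat.zero_le j)]
  | succ e =>
    have hB : B 1 b w ∈ Val (R := R) (m + 1 + 1) := B_mem hw' (by omega) b
    rcases cases4 (j + 1) (e + 1) with h | h | h | ⟨j', h, h'⟩
    · rw [X_lt _ _ h, Xn0_succ, Xn0_succ,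
        H1.NX_slide false (s := 2) (k := e) (j := j + 2) (by omega) (by omega) (by omega)
          (by omega) hB, H1.xb false 1 (j + 1) (by omega) (by omega) b w hw']
    · obtain rfl : e = j + 1 := by omega
      have hL := H.L_mem (k := j + 1) (by omega) hw'
      have hN : N (m + 1 + 1) 2 j (B 1 b w) ∈
          W (R := R) (m + 1 + 1) (rotN 2 j (insD 1 b d)) :=
        H1.N_memW (by omega) (by omega) (B_memW hw (by omega) b)
      have hN2 : rotN 2 j (insD 1 b d) (j + 2) = !b := by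
        rw [Nat.add_comm j 2, rotN_e]
        exact ins_r 1 b d
      have hN3 : rotN 2 j (insD 1 b d) (j + 2 + 1) = d (j + 1) := by
        rw [rotN_gt (by omega), show j + 2 + 1 = (j + 1) + 2 by omega, ins_ge (by omega)]
      have e1 : N (m + 1 + 1) 2 (j + 1) (B 1 b w) =
          X (m + 1 + 1) false (j + 2) (N (m + 1 + 1) 2 j (B 1 b w)) := by
        rw [N_succ, Nat.add_comm 2 j]
      rcases two (d (j + 1)) b with hd | hd
      · have e2 : X (m + 1) false 0 (L (m + 1) (j + 1) w) = Lg (m + 1) 1 j w := by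
          rw [L_head, H.np 0 (le_refl 0) (by omega) _ (H.Lg_mem (by omega) (by omega) hw')]
        rw [Xn_end_anti (m := m + 1) (e := j + 1) hw hd, Xn0_succ (m + 1) (j + 1), e1,
          H1.nn_anti HD1 (by omega) (by omega) (by rw [hN2, hN3, Bool.not_not, hd]) hN,
          Q1 H HD j (by omega) d b hd w hw, hN2]
        simp only [map_add, map_smul]
        rw [Xn0_succ, zero_bx H HD j (by omega) (!b) _ hL, e2]
      · rw [Xn_end_par (m := m + 1) (e := j + 1) hw hd, Xn0_succ (m + 1) (j + 1), e1,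
          H1.nn_par HD1 (by omega) (by omega) (by rw [hN2, hN3, hd]) hN]
        simp only [map_sub, map_smul]
        rw [Xn0_succ, Xn0_succ, e1]
    · obtain rfl : e = j := by omega
      rw [Xn_next (m + 1) (e + 1), Xn0_succ, Xn0_succ, N_succ, Nat.add_comm 2 e]
    · obtain rfl : j' = j := by omega
      rw [X_ge _ _ h', Xn0_succ, Xn0_succ,
        H1.NX_right false (s := 2) (k := e) (j := j' + 2) (by omega) (by omega) (by omega) hB,
        H1.xb false 1 j' (by omega) (by omega) b w hw']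

theorem zero_N (H : Rel R 0 m) (HD : RelD R m) {s k : ℕ} (hk : s + 2 + k ≤ 2 * (m + 1) + 1)
    {v : V R} (hv : v ∈ Val (R := R) (m + 1 + 1)) :
    X (m + 1 + 1) false 0 (N (m + 1 + 1) (s + 2) k v) =
      N (m + 1 + 1) (s + 2) k (X (m + 1 + 1) false 0 v) := by
  have H1 := rel1 H HD
  induction k with
  | zero => rfl
  | succ k ih =>
    rw [N_succ, N_succ, ← ih (by omega), show s + 2 + k = (s + k) + 2 by omega,
      zero_xx0 H HD (s + k) (by omega) _ (H1.N_mem (by omega) (by omega) hv)]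

theorem zero_np (H : Rel R 0 m) (HD : RelD R m) :
    ∀ v ∈ Val (R := R) (m + 1 + 1),
      X (m + 1 + 1) false 0 (X (m + 1 + 1) true 0 v) = v := by
  refine Val_ext ((X (m + 1 + 1) false 0).comp (X (m + 1 + 1) true 0))
    (LinearMap.id : V R →ₗ[R] V R) ?_
  intro e he b d w hw
  have hw' := W_le hw
  show X (m + 1 + 1) false 0 (X (m + 1 + 1) true 0 (P e b w)) = P e b w
  cases e with
  | zero => rw [Xp0_zero, map_smul, Xn0_zero, ai_a, Bool.not_not]
  | succ e =>
    have hB : B 1 b w ∈ Val (R := R) (m + 1 + 1) := B_mem hw' (by omega) b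
    have e2 : N (m + 1 + 1) 2 e (P 1 b w) = P (e + 1) b w := by
      rw [N_P (m + 1) e 1, Nat.add_comm]
    rcases two (d 0) b with hd | hd
    · have e1 : X (m + 1 + 1) true 1 (P 0 b w) = P 1 b w - (z : R) • B 1 b (L (m + 1) 0 w) :=
        Xp_next_anti (m := m + 1) (e := 0) hw hd
      rw [L_zero] at e1
      rw [Xp0_par hw hd]
      simp only [map_add, map_smul]
      rw [zero_N H HD (s := 0) (by omega) hB, ← zero_slide1 m b w hw', B_zero, e1, Xn0_succ]
      simp only [map_sub, map_smul]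
      rw [e2]
      abel
    · have e1 : X (m + 1 + 1) true 1 (P 0 b w) = P 1 b w + (z : R) • P 0 b w :=
        Xp_next_par (m := m + 1) (e := 0) hw hd
      have e3 : N (m + 1 + 1) 2 e (P 0 b w) = P 0 b (N (m + 1) 0 e w) := N_ge (le_refl 0) b w
      rw [Xp0_anti hw hd]
      simp only [map_sub, map_smul]
      rw [zero_N H HD (s := 0) (by omega) hB, ← zero_slide1 m b w hw', B_zero, e1, Xn0_zero,
        ai_a, Bool.not_not]
      simp only [map_add, map_smul]
      rw [e2, e3]
      abel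

theorem Val_fg (m : ℕ) : (Val (R := R) m).FG := by
  have hf : ∀ m, {t | valid m t}.Finite := by
    intro m
    induction m with
    | zero =>
      have : {t | valid 0 t} = {[]} := by
        ext t
        simp [valid]
      rw [this]
      exact Set.finite_singleton _
    | succ m ih =>
      refine Set.Finite.subset (((Set.finite_Iic (2 * m)).prod (Set.toFinite
        (Set.univ : Set Bool))).prod ih |>.image (fun x => x.1 :: x.2)) ?_
      rintro t ht
      rcases t with _ | ⟨⟨e, b⟩, t⟩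
      · exact ht.elim
      · exact ⟨((e, b), t), ⟨⟨ht.1, Set.mem_univ _⟩, ht.2⟩, rfl⟩
  have : {v : V R | ∃ t, valid m t ∧ v = Finsupp.single t 1} =
      (fun t => Finsupp.single t (1 : R)) '' {t | valid m t} := by
    ext v
    constructor
    · rintro ⟨t, h1, rfl⟩
      exact ⟨t, h1, rfl⟩
    · rintro ⟨t, h1, rfl⟩
      exact ⟨t, h1, rfl⟩
  rw [Val, this]
  exact Submodule.fg_span ((hf m).image _)

theorem zero_pn (H : Rel R 0 m) (HD : RelD R m) :
    ∀ v ∈ Val (R := R) (m + 1 + 1),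
      X (m + 1 + 1) true 0 (X (m + 1 + 1) false 0 v) = v := by
  have hfin : Module.Finite R (Val (R := R) (m + 1 + 1)) :=
    Module.Finite.iff_fg.2 (Val_fg (m + 1 + 1))
  let f : Val (R := R) (m + 1 + 1) →ₗ[R] Val (R := R) (m + 1 + 1) :=
    (X (m + 1 + 1) false 0).restrict (zero_mem H HD false)
  have hs : Function.Surjective f := by
    intro v
    refine ⟨⟨X (m + 1 + 1) true 0 v, zero_mem H HD true v v.2⟩, ?_⟩
    apply Subtype.ext
    exact zero_np H HD v v.2
  have hi : Function.Injective f := OrzechProperty.injective_of_surjective_endomorphism f hs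
  intro v hv
  have hx := zero_mem H HD false v hv
  have e : f ⟨X (m + 1 + 1) true 0 (X (m + 1 + 1) false 0 v), zero_mem H HD true _ hx⟩ =
      f ⟨v, hv⟩ := by
    apply Subtype.ext
    exact zero_np H HD _ hx
  exact congrArg Subtype.val (hi e)

theorem zero_xx (H : Rel R 0 m) (HD : RelD R m) (b c : Bool) (j : ℕ)
    (hj : j + 2 ≤ 2 * (m + 1)) :
    ∀ v ∈ Val (R := R) (m + 1 + 1),
      X (m + 1 + 1) b 0 (X (m + 1 + 1) c (j + 2) v) =
        X (m + 1 + 1) c (j + 2) (X (m + 1 + 1) b 0 v) := by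
  intro v hv
  have k := xx_of (S := (Val (R := R) (m + 1 + 1) : Set (V R)))
    (zero_mem H HD true) (new_mem H true (j + 1) (by omega))
    (zero_mem H HD false) (new_mem H false (j + 1) (by omega))
    (zero_pn H HD) (zero_np H HD) (new_pn H (j + 1) (by omega))
    (new_np H (j + 1) (by omega)) (zero_xx0 H HD j hj) v hv
  cases b
  · cases c
    · exact zero_xx0 H HD j hj v hv
    · exact k.2.1
  · cases c
    · exact k.1
    · exact k.2.2

theorem zero_bx' (H : Rel R 0 m) (HD : RelD R m) (b : Bool) (i : ℕ) (hi : i + 2 ≤ 2 * (m + 1))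
    (q : Bool) : ∀ v ∈ Val (R := R) (m + 1),
      X (m + 1 + 1) b 0 (B (i + 2) q v) = B (i + 2) q (X (m + 1) b 0 v) := by
  intro v hv
  cases b
  · exact zero_bx H HD i hi q v hv
  · have hx := H.mem true 0 (le_refl 0) (by omega) v hv
    have e := zero_bx H HD i hi q _ hx
    rw [H.np 0 (le_refl 0) (by omega) v hv] at e
    rw [← e, zero_pn H HD _ (B_mem hx hi q)]

theorem zero_third0 (H : Rel R 0 m) (HD : RelD R m) :
    ∀ v ∈ Val (R := R) (m + 1 + 1),
      X (m + 1 + 1) false 0 (X (m + 1 + 1) false 1 (X (m + 1 + 1) false 0 v)) =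
        X (m + 1 + 1) false 1 (X (m + 1 + 1) false 0 (X (m + 1 + 1) false 1 v)) := by
  have H1 := rel1 H HD
  refine Val_ext ((X (m + 1 + 1) false 0).comp ((X (m + 1 + 1) false 1).comp
    (X (m + 1 + 1) false 0))) ((X (m + 1 + 1) false 1).comp
    ((X (m + 1 + 1) false 0).comp (X (m + 1 + 1) false 1))) ?_
  intro e he b d w hw
  have hw' := W_le hw
  show X (m + 1 + 1) false 0 (X (m + 1 + 1) false 1 (X (m + 1 + 1) false 0 (P e b w))) =
    X (m + 1 + 1) false 1 (X (m + 1 + 1) false 0 (X (m + 1 + 1) false 1 (P e b w)))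
  have n0 : ∀ b, X (m + 1 + 1) false 1 (P 0 b w) = P 1 b w := fun b => Xn_next (m + 1) 0 b w
  have n1 : ∀ b, X (m + 1 + 1) false 0 (P 1 b w) = B 1 b w := fun b => Xn0_succ (m + 1) 0 b w
  have c1 : ∀ b, X (m + 1 + 1) false 1 (B 1 b w) = (a : R) • B 1 (!b) w := fun b =>
    new_curl H false 1 (by omega) b w hw'
  have z0 : ∀ b, X (m + 1 + 1) false 0 (P 0 b w) = (a : R) • P 0 (!b) w := fun b =>
    Xn0_zero (m + 1) b w
  rcases e with _ | _ | e
  · rw [z0, map_smul, n0, map_smul, n1, n0, n1, c1]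
  · show X (m + 1 + 1) false 0 (X (m + 1 + 1) false 1 (X (m + 1 + 1) false 0 (P 1 b w))) =
      X (m + 1 + 1) false 1 (X (m + 1 + 1) false 0 (X (m + 1 + 1) false 1 (P 1 b w)))
    rcases two (d 0) b with hd | hd
    · -- `d 0 = b`
      have hd' : d 0 = !(!b) := by rw [hd, Bool.not_not]
      have n2 : X (m + 1 + 1) false 1 (P 1 b w) =
          P 0 b w + (z : R) • (a : R) • B 1 (!b) (L (m + 1) 0 w) :=
        Xn_end_anti (m := m + 1) (e := 0) hw hd
      rw [L_zero] at n2
      have n3 : X (m + 1 + 1) false 1 (P 1 (!b) w) = P 0 (!b) w - (z : R) • P 1 (!b) w :=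
        Xn_end_par (m := m + 1) (e := 0) hw hd'
      have e1 : X (m + 1 + 1) true 1 (P 0 (!b) w) = P 1 (!b) w + (z : R) • P 0 (!b) w :=
        Xp_next_par (m := m + 1) (e := 0) hw hd'
      have s1 : X (m + 1 + 1) false 0 (B 1 (!b) w) = P 1 (!b) w + (z : R) • P 0 (!b) w := by
        rw [← zero_slide1 m (!b) w hw', B_zero, e1]
      rw [n1, c1, n2]
      simp only [map_add, map_smul]
      rw [s1, z0]
      simp only [map_add, map_smul]
      rw [n0, n3]
      module
    · -- `d 0 = !b`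
      have n2 : X (m + 1 + 1) false 1 (P 1 b w) = P 0 b w - (z : R) • P 1 b w :=
        Xn_end_par (m := m + 1) (e := 0) hw hd
      have e1 : X (m + 1 + 1) true 1 (P 0 (!b) w) =
          P 1 (!b) w - (z : R) • B 1 (!b) (L (m + 1) 0 w) :=
        Xp_next_anti (m := m + 1) (e := 0) hw hd
      rw [L_zero] at e1
      have s1 : X (m + 1 + 1) false 0 (B 1 (!b) w) = P 1 (!b) w - (z : R) • B 1 (!b) w := by
        rw [← zero_slide1 m (!b) w hw', B_zero, e1]
      rw [n1, c1, n2]
      simp only [map_sub, map_smul]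
      rw [s1, z0, n1]
      simp only [map_sub, map_smul]
      rw [n0, c1]
      module
  · have key : ∀ y ∈ Val (R := R) (m + 1),
        X (m + 1 + 1) false 1 (N (m + 1 + 1) 2 (e + 1) (B 1 b y)) =
          N (m + 1 + 1) 3 e (B 2 b y) := by
      intro y hy
      have hB2 : B 2 b y ∈ Val (R := R) (m + 1 + 1) := B_mem hy (by omega) b
      have s2 : X (m + 1 + 1) false 2 (B 1 b y) = X (m + 1 + 1) true 1 (B 2 b y) :=
        H1.slide false 1 (by omega) (by omega) b y hy
      rw [N_head, H1.NX_left false (j := 1) (by omega) (by omega) (by omega)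
        (H1.mem false 2 (by omega) (by omega) _ (B_mem hy (by omega) b)), s2,
        H1.np 1 (by omega) (by omega) _ hB2]
    have hx := H.mem false 0 (le_refl 0) (by omega) w hw'
    have b2 : X (m + 1 + 1) false 0 (B 2 b w) = B 2 b (X (m + 1) false 0 w) :=
      zero_bx H HD 0 (by omega) b w hw'
    rw [Xn0_succ (m + 1) (e + 1), key w hw',
      zero_N H HD (s := 1) (by omega) (B_mem hw' (by omega) b), b2,
      X_lt (m + 1) false (j := 0) (by omega : 0 + 1 < e + 1 + 1), Xn0_succ (m + 1) (e + 1),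
      key _ hx]

theorem zero_third (H : Rel R 0 m) (HD : RelD R m) :
    ∀ v ∈ Val (R := R) (m + 1 + 1),
      X (m + 1 + 1) true 0 (X (m + 1 + 1) true 1 (X (m + 1 + 1) true 0 v)) =
        X (m + 1 + 1) true 1 (X (m + 1 + 1) true 0 (X (m + 1 + 1) true 1 v)) :=
  mixN' (S := (Val (R := R) (m + 1 + 1) : Set (V R))) (zero_mem H HD true)
    (new_mem H true 0 (by omega)) (zero_mem H HD false) (zero_pn H HD) (zero_np H HD)
    (new_pn H 0 (by omega)) (new_np H 0 (by omega)) (new_mem H false 0 (by omega))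
    (zero_third0 H HD)

theorem rel0 (H : Rel R 0 m) (HD : RelD R m) : Rel R 0 (m + 1) where
  hp := Nat.zero_le 1
  hX0 s j hj := H.hX s j (by omega) (by omega)
  hX s j _ hj := by
    cases j with
    | zero => exact zero_hX H HD s
    | succ j => exact new_hX H s j hj
  pn j _ hj := by
    cases j with
    | zero => exact zero_pn H HD
    | succ j => exact new_pn H j hj
  np j _ hj := by
    cases j with
    | zero => exact zero_np H HD
    | succ j => exact new_np H j hj
  xx b c i j _ hij hj := by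
    cases i with
    | zero =>
      obtain ⟨j, rfl⟩ : ∃ j', j = j' + 2 := ⟨j - 2, by omega⟩
      exact zero_xx H HD b c j hj
    | succ i =>
      obtain ⟨j, rfl⟩ : ∃ j', j = j' + 1 := ⟨j - 1, by omega⟩
      exact new_xx H b c i j (by omega) hj
  third i _ hi := by
    cases i with
    | zero => exact zero_third H HD
    | succ i => exact new_third H HD i (by omega)
  curl b i _ hi := new_curl H b i hi
  slide b i _ hi q := by
    cases i with
    | zero =>
      cases b
      · exact zero_slide2 m q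
      · exact zero_slide1 m q
    | succ i => exact new_slide H b i (by omega) q
  xb b i j hij hj := new_xb H b i j hij hj
  bx b i j _ hij hi q := by
    cases j with
    | zero =>
      obtain ⟨i, rfl⟩ : ∃ i', i = i' + 2 := ⟨i - 2, by omega⟩
      exact zero_bx' H HD b i hi q
    | succ j => exact new_bx H b i j (by omega) hi q

/-! ### the base -/

theorem base_rel : Rel R 0 0 where
  hp := Nat.zero_le 1
  hX0 s j hj := by omega
  hX s j _ hj D' := by
    obtain rfl : j = 0 := by omega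
    refine W_map _ _ ?_
    rintro e he b d rfl w hw
    obtain rfl : e = 0 := by omega
    rw [swp_zero]
    cases s
    · rw [Xn0_zero]; exact Submodule.smul_mem _ _ (P_memW hw (by omega) _)
    · rw [Xp0_zero]; exact Submodule.smul_mem _ _ (P_memW hw (by omega) _)
  pn j _ hj := by
    obtain rfl : j = 0 := by omega
    refine Val_ext ((X (0 + 1) true 0).comp (X (0 + 1) false 0)) (LinearMap.id : V R →ₗ[R] V R) ?_
    intro e he b d w hw
    obtain rfl : e = 0 := by omega
    show X (0 + 1) true 0 (X (0 + 1) false 0 (P 0 b w)) = P 0 b w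
    rw [Xn0_zero, map_smul, Xp0_zero, a_ai, Bool.not_not]
  np j _ hj := by
    obtain rfl : j = 0 := by omega
    refine Val_ext ((X (0 + 1) false 0).comp (X (0 + 1) true 0)) (LinearMap.id : V R →ₗ[R] V R) ?_
    intro e he b d w hw
    obtain rfl : e = 0 := by omega
    show X (0 + 1) false 0 (X (0 + 1) true 0 (P 0 b w)) = P 0 b w
    rw [Xp0_zero, map_smul, Xn0_zero, ai_a, Bool.not_not]
  xx b c i j _ hij hj := by omega
  third i _ hi := by omega
  curl b i _ hi q := by
    obtain rfl : i = 0 := by omega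
    intro v hv
    rw [B_zero, B_zero]
    cases b
    · exact Xn0_zero _ _ _
    · exact Xp0_zero _ _ _
  slide b i _ hi := by omega
  xb b i j hij hj := by omega
  bx b i j _ hij hi := by omega

theorem base_relD : RelD R 0 where
  hD j hj D' hD := by
    obtain rfl : j = 0 := by omega
    refine W_map _ _ ?_
    rintro e he b d rfl w hw
    obtain rfl : e = 0 := by omega
    rw [D0_zero, del_zero]
    exact Submodule.smul_mem _ _ hw
  skp j hj D' hD := by
    obtain rfl : j = 0 := by omega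
    refine W_ext (X (0 + 1) true 0 - X (0 + 1) false 0)
      ((z : R) • (LinearMap.id : V R →ₗ[R] V R)) ?_
    rintro e he b d rfl w hw
    obtain rfl : e = 0 := by omega
    rw [pre_e, pre_0] at hD
    cases b <;> simp at hD
  ska j hj D' hD := by
    obtain rfl : j = 0 := by omega
    refine W_ext (X (0 + 1) false 0 - X (0 + 1) true 0)
      ((z : R) • ((B 0 (!D' 0)).comp (D 0 0) : V R →ₗ[R] V R)) ?_
    rintro e he b d rfl w hw
    obtain rfl : e = 0 := by omega
    show X (0 + 1) false 0 (P 0 b w) - X (0 + 1) true 0 (P 0 b w) =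
      (z : R) • B 0 (!pre 0 b d 0) (D 0 0 (P 0 b w))
    rw [B_zero, Xp0_zero, Xn0_zero, D0_zero, map_smul, smul_smul, h2, sub_smul, pre_0]
  zig1 i hi := by omega
  zig2 i hi := by omega

/-- all relations, at all levels -/
theorem allRel (m : ℕ) : Rel R 0 m ∧ RelD R m := by
  induction m with
  | zero => exact ⟨base_rel, base_relD⟩
  | succ m ih => exact ⟨rel0 ih.1 ih.2, relD1 ih.1 ih.2⟩

end

end

end Pool.Agent.Helper454.Wh.Homf
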